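import Pool.Agent.Helper127.Homfly.E10

/-!
# Existence of the HOMFLY polynomial, part 11: local moves
-/

set_option autoImplicit false

namespace Pool.Agent.Helper127.Homfly

open Pool.Agent.Helper454.Wh (insD delD swpD noD OPiece OWord below forget)
open Pool.Agent.Helper454.Wh.OPiece (birth death pos neg)
open Pool.Agent.Helper454.Kauf (LocalMove FirstMove Piece)
open Par

noncomputable section

set_option linter.unusedSectionVars false
set_option linter.unusedVariables false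

theorem eps_not (x y : Bool) : eps (!x) y = -eps x y := by
  cases x <;> cases y <;> simp [eps]

theorem eps_not' (x y : Bool) : eps x (!y) = -eps x y := by
  cases x <;> cases y <;> simp [eps]

theorem eps_comm (x y : Bool) : eps x y = eps y x := by
  cases x <;> cases y <;> simp [eps]

theorem eps_self (x : Bool) : eps x x = 1 := by simp [eps]

section
variable {R : Type} [CommRing R] [Par R] {m : ℕ}

/-- the crossing piece -/
def crs (s : Bool) (i : ℕ) : OPiece := if s then pos i else neg i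

theorem crs_fp {s : Bool} {i : ℕ} {p : OPiece}
    (h : p.forget = (crs s i).forget) : p = crs s i := by
  cases s
  · exact fp_neg h
  · exact fp_pos h

theorem bl_crs {s : Bool} {i n : ℕ} {d : ℕ → Bool} {t : ℕ × (ℕ → Bool)}
    (h : (crs s i).below n d = some t) : i + 2 ≤ n ∧ t = (n, swpD i d) := by
  cases s
  · exact bl_neg h
  · exact bl_pos h

/-- the sign of `crs s` for parallel strands -/
def sgn (s : Bool) : ℤ := if s then 1 else -1

theorem sg_crs (s : Bool) (i : ℕ) (d : ℕ → Bool) :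
    sg (crs s i) d = sgn s * eps (d i) (d (i + 1)) := by
  cases s
  · show -eps (d i) (d (i + 1)) = -1 * eps (d i) (d (i + 1))
    ring
  · show eps (d i) (d (i + 1)) = 1 * eps (d i) (d (i + 1))
    ring

theorem nd_crs (s : Bool) (i : ℕ) (d : ℕ → Bool) : nd (crs s i) d = swpD i d := by
  cases s <;> rfl

theorem pc_crs (n : ℕ) (s : Bool) (i : ℕ) : pc R n (crs s i) = X n s i := by
  cases s <;> rfl

theorem nx_crs (n : ℕ) (s : Bool) (i : ℕ) : nx n (crs s i) = n := by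
  cases s <;> rfl

theorem ex_cross (s : Bool) {i : ℕ} {q1 q : OPiece} {d : ℕ → Bool} {t : ℕ × (ℕ → Bool)}
    (h : i + 2 ≤ q.forget.index) (hq : q1.forget = q.forget.moved q.forget.index)
    (h1 : below [crs s i, q1] (2 * m) d = some t)
    (h2 : below [q, crs s i] (2 * m) d = some t) {v : V R} (hv : v ∈ W (R := R) m d) :
    Agree R m [crs s i, q1] [q, crs s i] d v := by
  obtain ⟨s1, h3, h4⟩ := bl_two h1
  obtain ⟨s2, h5, h6⟩ := bl_two h2
  obtain ⟨-, rfl⟩ := bl_crs h3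
  have e6 := (bl_crs h6).2
  unfold Agree
  simp only [opW_cons, opW_nil, lv, wr, pc_crs, nx_crs, nd_crs, sg_crs]
  cases q with
  | birth j c' =>
    obtain ⟨c, rfl⟩ := fp_birth hq
    have h : i + 2 ≤ j := h
    obtain ⟨h7, rfl⟩ := bl_birth h5
    obtain ⟨-, rfl⟩ := bl_birth h4
    have e2 := congrFun (congrArg Prod.snd e6) j
    simp only [OPiece.forget, Piece.index] at e2
    rw [ins_l, swp_gt (by omega), ins_l] at e2
    subst e2
    refine ⟨((allRel m).1.bx s j i (Nat.zero_le _) h h7 c v (W_le hv)).symm, rfl, ?_⟩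
    show sgn s * eps (d i) (d (i + 1)) + (0 + 0) =
      0 + (sgn s * eps (insD j c d i) (insD j c d (i + 1)) + 0)
    rw [ins_lt (by omega), ins_lt (by omega)]
    ring
  | death j =>
    have hq := fp_death hq
    subst hq
    have h : i + 2 ≤ j := h
    obtain ⟨h7, h8, rfl⟩ := bl_death h5
    obtain ⟨m, rfl⟩ : ∃ m', m = m' + 1 := ⟨m - 1, by omega⟩
    refine ⟨DX2 s (i := i) (j := j) h (by omega) h8 hv, rfl, ?_⟩
    show sgn s * eps (d i) (d (i + 1)) + (0 + 0) =
      0 + (sgn s * eps (delD j d i) (delD j d (i + 1)) + 0)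
    rw [del_lt (by omega), del_lt (by omega)]
    ring
  | pos j =>
    have hq := fp_pos hq
    subst hq
    have h : i + 2 ≤ j := h
    obtain ⟨h7, rfl⟩ := bl_pos h5
    obtain ⟨m, rfl⟩ : ∃ m', m = m' + 1 := ⟨m - 1, by omega⟩
    refine ⟨((allRel m).1.xx s true i j (Nat.zero_le _) h (by omega) v (W_le hv)).symm,
      rfl, ?_⟩
    show sgn s * eps (d i) (d (i + 1)) + (eps (swpD i d j) (swpD i d (j + 1)) + 0) =
      eps (d j) (d (j + 1)) + (sgn s * eps (swpD j d i) (swpD j d (i + 1)) + 0)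
    rw [swp_gt (by omega), swp_gt (by omega), swp_lt (by omega), swp_lt (by omega)]
    ring
  | neg j =>
    have hq := fp_neg hq
    subst hq
    have h : i + 2 ≤ j := h
    obtain ⟨h7, rfl⟩ := bl_neg h5
    obtain ⟨m, rfl⟩ : ∃ m', m = m' + 1 := ⟨m - 1, by omega⟩
    refine ⟨((allRel m).1.xx s false i j (Nat.zero_le _) h (by omega) v (W_le hv)).symm,
      rfl, ?_⟩
    show sgn s * eps (d i) (d (i + 1)) + (-eps (swpD i d j) (swpD i d (j + 1)) + 0) =
      -eps (d j) (d (j + 1)) + (sgn s * eps (swpD j d i) (swpD j d (i + 1)) + 0)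
    rw [swp_gt (by omega), swp_gt (by omega), swp_lt (by omega), swp_lt (by omega)]
    ring

theorem ex_death {i : ℕ} {q1 q : OPiece} {d : ℕ → Bool} {t : ℕ × (ℕ → Bool)}
    (h : i + 2 ≤ q.forget.index) (hq : q1.forget = q.forget.moved (q.forget.index - 2))
    (h1 : below [death i, q1] (2 * m) d = some t)
    (h2 : below [q, death i] (2 * m) d = some t) {v : V R} (hv : v ∈ W (R := R) m d) :
    Agree R m [death i, q1] [q, death i] d v := by
  obtain ⟨s1, h3, h4⟩ := bl_two h1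
  obtain ⟨s2, h5, h6⟩ := bl_two h2
  obtain ⟨h7, h8, rfl⟩ := bl_death h3
  have e6 := (bl_death h6).2.2
  obtain ⟨m, rfl⟩ : ∃ m', m = m' + 1 := ⟨m - 1, by omega⟩
  cases q with
  | birth j c' =>
    obtain ⟨j, rfl⟩ : ∃ j', j = j' + 2 := ⟨j - 2, by have : i + 2 ≤ j := h; omega⟩
    have h' : i + 2 ≤ j + 2 := h
    obtain ⟨c, hq⟩ := fp_birth hq
    have hq : q1 = birth j c := hq
    subst hq
    obtain ⟨h9, rfl⟩ := bl_birth h5
    obtain ⟨-, rfl⟩ := bl_birth h4
    have e2 := congrFun (congrArg Prod.snd e6) j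
    simp only at e2
    rw [ins_l, del_gt (by omega), ins_l] at e2
    subst e2
    exact ⟨(DB2 (i := i) (j := j) (by omega) (by omega) c h8 hv).symm, rfl, rfl⟩
  | death j =>
    obtain ⟨j, rfl⟩ : ∃ j', j = j' + 2 := ⟨j - 2, by have : i + 2 ≤ j := h; omega⟩
    have h' : i + 2 ≤ j + 2 := h
    have hq : q1 = death j := fp_death hq
    subst hq
    obtain ⟨h9, h10, rfl⟩ := bl_death h5
    obtain ⟨m, rfl⟩ : ∃ m', m = m' + 1 := ⟨m - 1, by omega⟩
    exact ⟨DD (m := m) (i := i) (j := j) (by omega) (by omega) h8 h10 hv, rfl, rfl⟩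
  | pos j =>
    obtain ⟨j, rfl⟩ : ∃ j', j = j' + 2 := ⟨j - 2, by have : i + 2 ≤ j := h; omega⟩
    have h' : i + 2 ≤ j + 2 := h
    have hq : q1 = pos j := fp_pos hq
    subst hq
    obtain ⟨h9, rfl⟩ := bl_pos h5
    refine ⟨(DX1 true (i := i) (j := j) (by omega) (by omega) h8 hv).symm, rfl, ?_⟩
    show 0 + (eps (delD i d j) (delD i d (j + 1)) + 0) = eps (d (j + 2)) (d (j + 2 + 1)) + (0 + 0)
    rw [del_gt (by omega), del_gt (by omega)]
    ring_nf
  | neg j =>
    obtain ⟨j, rfl⟩ : ∃ j', j = j' + 2 := ⟨j - 2, by have : i + 2 ≤ j := h; omega⟩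
    have h' : i + 2 ≤ j + 2 := h
    have hq : q1 = neg j := fp_neg hq
    subst hq
    obtain ⟨h9, rfl⟩ := bl_neg h5
    refine ⟨(DX1 false (i := i) (j := j) (by omega) (by omega) h8 hv).symm, rfl, ?_⟩
    show 0 + (-eps (delD i d j) (delD i d (j + 1)) + 0) =
      -eps (d (j + 2)) (d (j + 2 + 1)) + (0 + 0)
    rw [del_gt (by omega), del_gt (by omega)]
    ring_nf

theorem local_op {l r : OWord} (hlr : LocalMove (forget l) (forget r)) {d : ℕ → Bool}
    {t : ℕ × (ℕ → Bool)} (h1 : below l (2 * m) d = some t) (h2 : below r (2 * m) d = some t)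
    {v : V R} (hv : v ∈ W (R := R) m d) : Agree R m l r d v := by
  generalize hL : forget l = L' at hlr
  generalize hR : forget r = R' at hlr
  cases hlr with
  | exchange p q h =>
    obtain ⟨p1, q1, rfl, rfl, hq1⟩ := fg_two hL
    obtain ⟨q2, p2, rfl, rfl, hp2⟩ := fg_two hR
    cases p1 with
    | birth i b =>
      obtain ⟨b', rfl⟩ := fp_birth hp2
      exact ex_birth h hq1 h1 h2 hv
    | death i =>
      obtain rfl := fp_death hp2
      exact ex_death h hq1 h1 h2 hv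
    | pos i =>
      obtain rfl := fp_pos hp2
      exact ex_cross true h hq1 h1 h2 hv
    | neg i =>
      obtain rfl := fp_neg hp2
      exact ex_cross false h hq1 h1 h2 hv
  | zigzag₁ i =>
    obtain ⟨p1, q1, rfl, hp, hq⟩ := fg_two hL
    obtain rfl := fg_nil hR
    obtain ⟨b, rfl⟩ := fp_birth hp
    obtain rfl := fp_death hq
    obtain ⟨s1, h3, h4⟩ := bl_two h1
    obtain ⟨h5, rfl⟩ := bl_birth h3
    obtain ⟨h6, h7, rfl⟩ := bl_death h4
    simp only at h6 h7
    rw [show i + 1 + 1 = i + 2 by omega, ins_ge (le_refl i), ins_r, Bool.not_not] at h7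
    exact ⟨(allRel m).2.zig1 i (by omega) d b h7 v hv, rfl, rfl⟩
  | zigzag₂ i =>
    obtain ⟨p1, q1, rfl, hp, hq⟩ := fg_two hL
    obtain rfl := fg_nil hR
    obtain ⟨b, rfl⟩ := fp_birth hp
    obtain rfl := fp_death hq
    obtain ⟨s1, h3, h4⟩ := bl_two h1
    obtain ⟨h5, rfl⟩ := bl_birth h3
    obtain ⟨h6, h7, rfl⟩ := bl_death h4
    simp only at h6 h7
    rw [ins_l, ins_lt (by omega)] at h7
    exact ⟨(allRel m).2.zig2 i (by omega) d b (by rw [h7, Bool.not_not]) v hv, rfl, rfl⟩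
  | slideBirth₁ i =>
    obtain ⟨p1, q1, rfl, hp, hq⟩ := fg_two hL
    obtain ⟨p2, q2, rfl, hp2, hq2⟩ := fg_two hR
    obtain ⟨b, rfl⟩ := fp_birth hp
    obtain rfl := fp_pos hq
    obtain ⟨b', rfl⟩ := fp_birth hp2
    obtain rfl := fp_neg hq2
    obtain ⟨s1, h3, h4⟩ := bl_two h1
    obtain ⟨s2, h5, h6⟩ := bl_two h2
    obtain ⟨-, rfl⟩ := bl_birth h3
    obtain ⟨h7, rfl⟩ := bl_birth h5
    obtain ⟨-, rfl⟩ := bl_pos h4
    have e := congrFun (congrArg Prod.snd (bl_neg h6).2) i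
    simp only at e
    rw [swp_lt (by omega), ins_l, swp_l, ins_l] at e
    subst e
    refine ⟨(allRel m).1.slide true i (Nat.zero_le _) h7 b v (W_le hv), rfl, ?_⟩
    show 0 + (eps (insD i b d (i + 1)) (insD i b d (i + 1 + 1)) + 0) =
      0 + (-eps (insD (i + 1) b d i) (insD (i + 1) b d (i + 1)) + 0)
    rw [ins_r, show i + 1 + 1 = i + 2 by omega, ins_ge (le_refl i), ins_lt (by omega), ins_l,
      eps_not, eps_comm]
  | slideBirth₂ i =>
    obtain ⟨p1, q1, rfl, hp, hq⟩ := fg_two hL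
    obtain ⟨p2, q2, rfl, hp2, hq2⟩ := fg_two hR
    obtain ⟨b, rfl⟩ := fp_birth hp
    obtain rfl := fp_neg hq
    obtain ⟨b', rfl⟩ := fp_birth hp2
    obtain rfl := fp_pos hq2
    obtain ⟨s1, h3, h4⟩ := bl_two h1
    obtain ⟨s2, h5, h6⟩ := bl_two h2
    obtain ⟨-, rfl⟩ := bl_birth h3
    obtain ⟨h7, rfl⟩ := bl_birth h5
    obtain ⟨-, rfl⟩ := bl_neg h4
    have e := congrFun (congrArg Prod.snd (bl_pos h6).2) i
    simp only at e
    rw [swp_lt (by omega), ins_l, swp_l, ins_l] at e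
    subst e
    refine ⟨(allRel m).1.slide false i (Nat.zero_le _) h7 b v (W_le hv), rfl, ?_⟩
    show 0 + (-eps (insD i b d (i + 1)) (insD i b d (i + 1 + 1)) + 0) =
      0 + (eps (insD (i + 1) b d i) (insD (i + 1) b d (i + 1)) + 0)
    rw [ins_r, show i + 1 + 1 = i + 2 by omega, ins_ge (le_refl i), ins_lt (by omega), ins_l,
      eps_not, eps_comm, neg_neg]
  | slideDeath₁ i =>
    obtain ⟨p1, q1, rfl, hp, hq⟩ := fg_two hL
    obtain ⟨p2, q2, rfl, hp2, hq2⟩ := fg_two hR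
    obtain rfl := fp_pos hp
    obtain rfl := fp_death hq
    obtain rfl := fp_neg hp2
    obtain rfl := fp_death hq2
    obtain ⟨s1, h3, h4⟩ := bl_two h1
    obtain ⟨h5, rfl⟩ := bl_pos h3
    obtain ⟨h6, h7, rfl⟩ := bl_death h4
    simp only at h6 h7
    rw [swp_l, swp_lt (by omega)] at h7
    have h7 : d (i + 2) = !d i := h7
    obtain ⟨m, rfl⟩ : ∃ m', m = m' + 1 := ⟨m - 1, by omega⟩
    refine ⟨slideD (allRel m).1 (allRel m).2 true (by omega) h7 hv, rfl, ?_⟩
    show eps (d (i + 1)) (d (i + 2)) + (0 + 0) = -eps (d i) (d (i + 1)) + (0 + 0)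
    rw [h7, eps_not', eps_comm]
  | slideDeath₂ i =>
    obtain ⟨p1, q1, rfl, hp, hq⟩ := fg_two hL
    obtain ⟨p2, q2, rfl, hp2, hq2⟩ := fg_two hR
    obtain rfl := fp_neg hp
    obtain rfl := fp_death hq
    obtain rfl := fp_pos hp2
    obtain rfl := fp_death hq2
    obtain ⟨s1, h3, h4⟩ := bl_two h1
    obtain ⟨h5, rfl⟩ := bl_neg h3
    obtain ⟨h6, h7, rfl⟩ := bl_death h4
    simp only at h6 h7
    rw [swp_l, swp_lt (by omega)] at h7
    have h7 : d (i + 2) = !d i := h7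
    obtain ⟨m, rfl⟩ : ∃ m', m = m' + 1 := ⟨m - 1, by omega⟩
    refine ⟨slideD (allRel m).1 (allRel m).2 false (by omega) h7 hv, rfl, ?_⟩
    show -eps (d (i + 1)) (d (i + 2)) + (0 + 0) = eps (d i) (d (i + 1)) + (0 + 0)
    rw [h7, eps_not', eps_comm, neg_neg]
  | second₁ i =>
    obtain ⟨p1, q1, rfl, hp, hq⟩ := fg_two hL
    obtain rfl := fg_nil hR
    obtain rfl := fp_pos hp
    obtain rfl := fp_neg hq
    obtain ⟨s1, h3, h4⟩ := bl_two h1
    obtain ⟨h5, rfl⟩ := bl_pos h3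
    obtain ⟨m, rfl⟩ : ∃ m', m = m' + 1 := ⟨m - 1, by omega⟩
    refine ⟨(allRel m).1.np i (Nat.zero_le _) (by omega) v (W_le hv), rfl, ?_⟩
    show eps (d i) (d (i + 1)) + (-eps (swpD i d i) (swpD i d (i + 1)) + 0) = 0
    rw [swp_l, swp_r, eps_comm]
    ring
  | second₂ i =>
    obtain ⟨p1, q1, rfl, hp, hq⟩ := fg_two hL
    obtain rfl := fg_nil hR
    obtain rfl := fp_neg hp
    obtain rfl := fp_pos hq
    obtain ⟨s1, h3, h4⟩ := bl_two h1
    obtain ⟨h5, rfl⟩ := bl_neg h3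
    obtain ⟨m, rfl⟩ : ∃ m', m = m' + 1 := ⟨m - 1, by omega⟩
    refine ⟨(allRel m).1.pn i (Nat.zero_le _) (by omega) v (W_le hv), rfl, ?_⟩
    show -eps (d i) (d (i + 1)) + (eps (swpD i d i) (swpD i d (i + 1)) + 0) = 0
    rw [swp_l, swp_r, eps_comm]
    ring
  | third i =>
    obtain ⟨p1, p2, p3, rfl, hp1, hp2, hp3⟩ := fg_three hL
    obtain ⟨q1, q2, q3, rfl, hq1, hq2, hq3⟩ := fg_three hR
    obtain rfl := fp_pos hp1
    obtain rfl := fp_pos hp2
    obtain rfl := fp_pos hp3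
    obtain rfl := fp_pos hq1
    obtain rfl := fp_pos hq2
    obtain rfl := fp_pos hq3
    obtain ⟨s1, h3, h4⟩ := bl_cons h1
    obtain ⟨h5, rfl⟩ := bl_pos h3
    obtain ⟨s2, h6, h7⟩ := bl_cons h4
    obtain ⟨h8, rfl⟩ := bl_pos h6
    obtain ⟨m, rfl⟩ : ∃ m', m = m' + 1 := ⟨m - 1, by omega⟩
    refine ⟨(allRel m).1.third i (Nat.zero_le _) (by simp only at h8; omega) v (W_le hv), rfl, ?_⟩
    show eps (d i) (d (i + 1)) + (eps (swpD i d (i + 1)) (swpD i d (i + 1 + 1)) +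
        (eps (swpD (i + 1) (swpD i d) i) (swpD (i + 1) (swpD i d) (i + 1)) + 0)) =
      eps (d (i + 1)) (d (i + 1 + 1)) + (eps (swpD (i + 1) d i) (swpD (i + 1) d (i + 1)) +
        (eps (swpD i (swpD (i + 1) d) (i + 1)) (swpD i (swpD (i + 1) d) (i + 1 + 1)) + 0))
    rw [swp_r i d, swp_gt (by omega : i + 1 < i + 1 + 1), swp_lt (by omega : i < i + 1) (swpD i d),
      swp_l i d, swp_l (i + 1) (swpD i d), swp_gt (by omega : i + 1 < i + 1 + 1),
      swp_lt (by omega : i < i + 1) d, swp_l (i + 1) d, swp_r i (swpD (i + 1) d),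
      swp_lt (by omega : i < i + 1) d, swp_gt (by omega : i + 1 < i + 1 + 1), swp_r (i + 1) d]
    ring

end

end

end Pool.Agent.Helper127.Homfly
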