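import Pool.Agent.Helper127.Homfly.E1

/-!
# Existence of the HOMFLY polynomial, part 2: the operators
-/

set_option autoImplicit false

namespace Pool.Agent.Helper127.Homfly

open Pool.Agent.Helper454.Wh (insD delD swpD noD)
open Par

noncomputable section

variable {R : Type} [CommRing R]

/-- an arc over everything -/
def P (e : ℕ) (b : Bool) : V R →ₗ[R] V R := Finsupp.lmapDomain R R (List.cons (e, b))

theorem P_inj (e : ℕ) (b : Bool) {u v : V R} (h : P e b u = P e b v) : u = v :=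
  Finsupp.mapDomain_injective (List.cons_injective) h

theorem P_apply (e : ℕ) (b : Bool) (t : List (ℕ × Bool)) (v : V R) : P e b v ((e, b) :: t) = v t :=
  Finsupp.mapDomain_apply (List.cons_injective) v t

theorem P_def (e : ℕ) (b : Bool) (v : V R) :
    P e b v = Finsupp.mapDomain (List.cons (e, b)) v := rfl

theorem P_single (e : ℕ) (b : Bool) (t : List (ℕ × Bool)) (r : R) :
    P e b (Finsupp.single t r) = Finsupp.single ((e, b) :: t) r := by
  rw [P, Finsupp.lmapDomain_apply, Finsupp.mapDomain_single]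

/-- a linear map given by its restrictions to the blocks -/
def blk (F : ℕ → Bool → V R →ₗ[R] V R) : V R →ₗ[R] V R :=
  Finsupp.linearCombination R (fun l => match l with
    | [] => 0
    | p :: t => F p.1 p.2 (Finsupp.single t 1))

theorem blk_P (F : ℕ → Bool → V R →ₗ[R] V R) (e : ℕ) (b : Bool) (v : V R) :
    blk F (P e b v) = F e b v := by
  have : (blk F).comp (P e b) = F e b := by
    refine Finsupp.lhom_ext fun t r => ?_
    rw [LinearMap.comp_apply, P, Finsupp.lmapDomain_apply, Finsupp.mapDomain_single, blk,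
      Finsupp.linearCombination_single]
    rw [← map_smul, Finsupp.smul_single, smul_eq_mul, mul_one]
  rw [← this]
  rfl

/-- the birth on lists -/
def bL : ℕ → Bool → List (ℕ × Bool) → List (ℕ × Bool)
  | 0, c, t => (0, c) :: t
  | _ + 1, _, [] => []
  | l + 1, c, (e, b) :: t => if l ≤ e then (e + 2, b) :: bL l c t else (e, b) :: bL (l - 1) c t

def B (l : ℕ) (c : Bool) : V R →ₗ[R] V R := Finsupp.lmapDomain R R (bL l c)

theorem B_zero (c : Bool) (v : V R) : B 0 c v = P 0 c v := by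
  have : bL 0 c = List.cons (0, c) := by
    funext t
    cases t <;> rfl
  rw [B, this]
  rfl

theorem B_le {l e : ℕ} (h : l ≤ e) (c b : Bool) (v : V R) :
    B (l + 1) c (P e b v) = P (e + 2) b (B l c v) := by
  have : (B (l + 1) c).comp (P e b) = (P (e + 2) b).comp (B l c : V R →ₗ[R] V R) := by
    refine Finsupp.lhom_ext fun t r => ?_
    simp [B, P, Finsupp.mapDomain_single, bL, h]
  exact LinearMap.congr_fun this v

theorem B_ge {l e : ℕ} (h : e ≤ l) (c b : Bool) (v : V R) :
    B (l + 2) c (P e b v) = P e b (B l c v) := by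
  have : (B (l + 2) c).comp (P e b) = (P e b).comp (B l c : V R →ₗ[R] V R) := by
    refine Finsupp.lhom_ext fun t r => ?_
    have h' : ¬ (l + 1 ≤ e) := by omega
    simp [B, P, Finsupp.mapDomain_single, bL, h']
  exact LinearMap.congr_fun this v

theorem bL_inj (l : ℕ) (c : Bool) : Function.Injective (bL l c) := by
  induction l using Nat.strong_induction_on with
  | _ l ih =>
    intro s t h
    rcases l with _ | l
    · rcases s with _ | ⟨⟨e, b⟩, s⟩ <;> rcases t with _ | ⟨⟨f, b'⟩, t⟩ <;> simp_all [bL]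
    · rcases s with _ | ⟨⟨e, b⟩, s⟩ <;> rcases t with _ | ⟨⟨f, b'⟩, t⟩
      · rfl
      · simp only [bL] at h
        split at h <;> simp at h
      · simp only [bL] at h
        split at h <;> simp at h
      · simp only [bL] at h
        split at h <;> split at h
        · simp only [List.cons.injEq, Prod.mk.injEq, Nat.add_right_cancel_iff] at h
          obtain ⟨⟨rfl, rfl⟩, h⟩ := h
          rw [ih l (by omega) h]
        · simp only [List.cons.injEq, Prod.mk.injEq] at h
          omega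
        · simp only [List.cons.injEq, Prod.mk.injEq] at h
          omega
        · simp only [List.cons.injEq, Prod.mk.injEq] at h
          obtain ⟨⟨rfl, rfl⟩, h⟩ := h
          rw [ih (l - 1) (by omega) h]

theorem Binj (l : ℕ) (c : Bool) {u v : V R} (h : B l c u = B l c v) : u = v :=
  Finsupp.mapDomain_injective (bL_inj l c) h

/-- the part in which the strand `j` has the direction `c` -/
def pr (j : ℕ) (c : Bool) : V R →ₗ[R] V R :=
  Finsupp.linearCombination R (fun t => if dirF t j = c then Finsupp.single t 1 else 0)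

variable [Par R]

/-- `neg s`, ..., `neg (s+k-1)` -/
def Nn (Y : ℕ → V R →ₗ[R] V R) (s : ℕ) : ℕ → V R →ₗ[R] V R
  | 0 => LinearMap.id
  | k + 1 => (Y (s + k)).comp (Nn Y s k)

/-- `pos (k-1)`, ..., `pos 0` -/
def Ll (Y : ℕ → V R →ₗ[R] V R) : ℕ → V R →ₗ[R] V R
  | 0 => LinearMap.id
  | k + 1 => (Ll Y k).comp (Y k)

def Xp (Y : Bool → ℕ → V R →ₗ[R] V R) (s : Bool) (j : ℕ) : V R →ₗ[R] V R :=
  blk (R := R) (fun e b =>
    if j < e then (P e b).comp (Y s (j - 1))
    else if e + 2 ≤ j then (P e b).comp (Y s (j - 2))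
    else if j = e + 1 then
      if s then (P (e + 1) b : V R →ₗ[R] V R) +
        (z : R) • ((P e b).comp (pr e (!b)) -
          (B (e + 1) b).comp ((Ll (Y true) e).comp (pr e b))) else P (e + 1) b
    else
      if s then P (e - 1) b
      else (P (e - 1) b : V R →ₗ[R] V R) -
        (z : R) • ((P e b).comp (pr (e - 1) (!b)) -
          (a : R) • (B e (!b)).comp ((Ll (Y true) (e - 1)).comp (pr (e - 1) b))))

def X0 (Y : Bool → ℕ → V R →ₗ[R] V R) (s : Bool) : V R →ₗ[R] V R :=
  blk (fun e b =>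
    if e = 0 then (if s then (ai : R) else a) • P 0 (!b)
    else if s then (Nn (Xp Y false) 2 (e - 1)).comp (B 1 b) +
      (z : R) • ((P e b).comp (pr 0 b) -
        (ai : R) • (P 0 (!b)).comp ((Nn (Y false) 0 (e - 1)).comp (pr 0 (!b))))
    else (Nn (Xp Y false) 2 (e - 1)).comp (B 1 b))

def X : ℕ → Bool → ℕ → V R →ₗ[R] V R
  | 0, _, _ => LinearMap.id
  | m + 1, s, j => if j = 0 then X0 (X m) s else Xp (X m) s j

def N (m s k : ℕ) : V R →ₗ[R] V R := Nn (X m false) s k
def L (m k : ℕ) : V R →ₗ[R] V R := Ll (X m true) k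

def D : ℕ → ℕ → V R →ₗ[R] V R
  | 0, _ => blk (fun _ _ => (dl : R) • LinearMap.id)
  | m + 1, j => blk (fun e b =>
    if j = 0 then (if e = 0 then (dl : R) • LinearMap.id else (ai : R) • N (m + 1) 0 (e - 1))
    else if j < e then (P (e - 2) b).comp (D m (j - 1))
    else if e + 2 ≤ j then (P e b).comp (D m (j - 2))
    else if j = e + 1 then L (m + 1) e
    else (a : R) • L (m + 1) (e - 1))

/-! ### basic rules -/

theorem N_zero (m s : ℕ) (v : V R) : N m s 0 v = v := rfl
theorem N_succ (m s k : ℕ) (v : V R) : N m s (k + 1) v = X m false (s + k) (N m s k v) := rfl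
theorem L_zero (m : ℕ) (v : V R) : L m 0 v = v := rfl
theorem L_succ (m k : ℕ) (v : V R) : L m (k + 1) v = L m k (X m true k v) := rfl

omit [Par R] in
theorem Nn_congr {Y Y' : ℕ → V R →ₗ[R] V R} {s : ℕ} (h : ∀ j, s ≤ j → Y j = Y' j) (k : ℕ) :
    Nn Y s k = Nn Y' s k := by
  induction k with
  | zero => rfl
  | succ k ih => rw [Nn, Nn, ih, h _ (by omega)]

theorem X_succ_pos (m : ℕ) (s : Bool) (j : ℕ) :
    X (m + 1) s (j + 1) = Xp (X m) s (j + 1) (R := R) := by
  rw [X, if_neg (by omega)]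

theorem X_lt (m : ℕ) (s : Bool) {j e : ℕ} (h : j + 1 < e) (b : Bool) (v : V R) :
    X (m + 1) s (j + 1) (P e b v) = P e b (X m s j v) := by
  rw [X_succ_pos, Xp, blk_P, if_pos h]
  rfl

theorem X_ge (m : ℕ) (s : Bool) {j e : ℕ} (h : e ≤ j) (b : Bool) (v : V R) :
    X (m + 1) s (j + 2) (P e b v) = P e b (X m s j v) := by
  rw [X_succ_pos, Xp, blk_P, if_neg (by omega), if_pos (by omega)]
  rfl

theorem Xn_next (m e : ℕ) (b : Bool) (v : V R) :
    X (m + 1) false (e + 1) (P e b v) = P (e + 1) b v := by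
  rw [X_succ_pos, Xp, blk_P, if_neg (by omega), if_neg (by omega), if_pos rfl, if_neg (by simp)]

theorem Xp_next0 (m e : ℕ) (b : Bool) (v : V R) : X (m + 1) true (e + 1) (P e b v) =
    P (e + 1) b v + (z : R) • (P e b (pr e (!b) v) - B (e + 1) b (L m e (pr e b v))) := by
  rw [X_succ_pos, Xp, blk_P, if_neg (by omega), if_neg (by omega), if_pos rfl, if_pos rfl]
  rfl

theorem Xp_end (m e : ℕ) (b : Bool) (v : V R) :
    X (m + 1) true (e + 1) (P (e + 1) b v) = P e b v := by
  rw [X_succ_pos, Xp, blk_P, if_neg (by omega), if_neg (by omega), if_neg (by omega), if_pos rfl]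
  rfl

theorem Xn_end0 (m e : ℕ) (b : Bool) (v : V R) : X (m + 1) false (e + 1) (P (e + 1) b v) =
    P e b v - (z : R) • (P (e + 1) b (pr e (!b) v) -
      (a : R) • B (e + 1) (!b) (L m e (pr e b v))) := by
  rw [X_succ_pos, Xp, blk_P, if_neg (by omega), if_neg (by omega), if_neg (by omega),
    if_neg (by simp)]
  rfl

theorem Xn0_zero (m : ℕ) (b : Bool) (v : V R) :
    X (m + 1) false 0 (P 0 b v) = (a : R) • P 0 (!b) v := by
  rw [X, if_pos rfl, X0, blk_P, if_pos rfl]
  rfl

theorem Xp0_zero (m : ℕ) (b : Bool) (v : V R) :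
    X (m + 1) true 0 (P 0 b v) = (ai : R) • P 0 (!b) v := by
  rw [X, if_pos rfl, X0, blk_P, if_pos rfl]
  rfl

theorem Xn0_succ (m e : ℕ) (b : Bool) (v : V R) :
    X (m + 1) false 0 (P (e + 1) b v) = N (m + 1) 2 e (B 1 b v) := by
  rw [X, if_pos rfl, X0, blk_P, if_neg (by omega), if_neg (by simp), N,
    Nn_congr (Y := X (m + 1) false) (Y' := Xp (X m) false)]
  · rfl
  · intro j hj
    obtain ⟨j', rfl⟩ : ∃ j', j = j' + 1 := ⟨j - 1, by omega⟩
    exact X_succ_pos m false j'

theorem Xp0_succ0 (m e : ℕ) (b : Bool) (v : V R) : X (m + 1) true 0 (P (e + 1) b v) =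
    N (m + 1) 2 e (B 1 b v) + (z : R) • (P (e + 1) b (pr 0 b v) -
      (ai : R) • P 0 (!b) (N m 0 e (pr 0 (!b) v))) := by
  rw [X, if_pos rfl, X0, blk_P, if_neg (by omega), if_pos rfl, N,
    Nn_congr (Y := X (m + 1) false) (Y' := Xp (X m) false)]
  · rfl
  · intro j hj
    obtain ⟨j', rfl⟩ : ∃ j', j = j' + 1 := ⟨j - 1, by omega⟩
    exact X_succ_pos m false j'

theorem D0_zero (m : ℕ) (b : Bool) (v : V R) : D m 0 (P 0 b v) = (dl : R) • v := by
  cases m with
  | zero => rw [D, blk_P]; rfl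
  | succ m => rw [D, blk_P, if_pos rfl, if_pos rfl]; rfl

theorem D0_succ {m e : ℕ} (h : e + 1 ≤ 2 * m) (b : Bool) (v : V R) :
    D m 0 (P (e + 1) b v) = (ai : R) • N m 0 e v := by
  obtain ⟨m, rfl⟩ : ∃ m', m = m' + 1 := ⟨m - 1, by omega⟩
  rw [D, blk_P, if_pos rfl, if_neg (by omega)]; rfl

theorem D_le (m : ℕ) {j e : ℕ} (h : j ≤ e) (b : Bool) (v : V R) :
    D (m + 1) (j + 1) (P (e + 2) b v) = P e b (D m j v) := by
  rw [D, blk_P, if_neg (by omega), if_pos (by omega)]; rfl

theorem D_ge (m : ℕ) {j e : ℕ} (h : e ≤ j) (b : Bool) (v : V R) :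
    D (m + 1) (j + 2) (P e b v) = P e b (D m j v) := by
  rw [D, blk_P, if_neg (by omega), if_neg (by omega), if_pos (by omega)]; rfl

theorem D_next {m e : ℕ} (h : e + 1 ≤ 2 * m) (b : Bool) (v : V R) :
    D m (e + 1) (P e b v) = L m e v := by
  obtain ⟨m, rfl⟩ : ∃ m', m = m' + 1 := ⟨m - 1, by omega⟩
  rw [D, blk_P, if_neg (by omega), if_neg (by omega), if_neg (by omega), if_pos rfl]

theorem D_end {m e : ℕ} (h : e + 1 ≤ 2 * m) (b : Bool) (v : V R) :
    D m (e + 1) (P (e + 1) b v) = (a : R) • L m e v := by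
  obtain ⟨m, rfl⟩ : ∃ m', m = m' + 1 := ⟨m - 1, by omega⟩
  rw [D, blk_P, if_neg (by omega), if_neg (by omega), if_neg (by omega), if_neg (by omega)]; rfl

theorem a_ai (v : V R) : (a : R) • (ai : R) • v = v := by
  rw [smul_smul, h1, one_smul]

theorem ai_a (v : V R) : (ai : R) • (a : R) • v = v := by
  rw [smul_smul, mul_comm, h1, one_smul]

/-! ### the spaces -/

/-- the lists which describe `m` arcs on `2 * m` strands -/
def valid : ℕ → List (ℕ × Bool) → Prop
  | 0, t => t = []
  | _ + 1, [] => False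
  | m + 1, (e, _) :: t => e ≤ 2 * m ∧ valid m t

/-- all states with `m` arcs -/
def Val (m : ℕ) : Submodule R (V R) :=
  Submodule.span R {v | ∃ t, valid m t ∧ v = Finsupp.single t 1}

/-- the states with `m` arcs and the directions `d` of the strands -/
def W (m : ℕ) (d : ℕ → Bool) : Submodule R (V R) :=
  Submodule.span R {v | ∃ t, valid m t ∧ dirF t = d ∧ v = Finsupp.single t 1}

omit [Par R] in
theorem W_le {m : ℕ} {d : ℕ → Bool} {v : V R} (hv : v ∈ W (R := R) m d) : v ∈ Val (R := R) m := by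
  refine Submodule.span_mono ?_ hv
  rintro _ ⟨t, h1, h2, rfl⟩
  exact ⟨t, h1, rfl⟩

omit [Par R] in
/-- it is enough to compare linear maps on homogeneous states -/
theorem Val_of_W {m : ℕ} (f g : V R →ₗ[R] V R)
    (h : ∀ d, ∀ v ∈ W (R := R) m d, f v = g v) : ∀ v ∈ Val (R := R) m, f v = g v := by
  have : Val (R := R) m ≤ LinearMap.eqLocus f g := by
    refine Submodule.span_le.2 ?_
    rintro _ ⟨t, h1, rfl⟩
    exact h (dirF t) _ (Submodule.subset_span ⟨t, h1, rfl, rfl⟩)
  exact this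

omit [Par R] in
theorem Val_of_W_mem {m : ℕ} (f : V R →ₗ[R] V R) (U : Submodule R (V R))
    (h : ∀ d, ∀ v ∈ W (R := R) m d, f v ∈ U) : ∀ v ∈ Val (R := R) m, f v ∈ U := by
  have : Val (R := R) m ≤ U.comap f := by
    refine Submodule.span_le.2 ?_
    rintro _ ⟨t, h1, rfl⟩
    exact h (dirF t) _ (Submodule.subset_span ⟨t, h1, rfl, rfl⟩)
  exact this

omit [Par R] in
theorem P_memW {m e : ℕ} {d : ℕ → Bool} {v : V R} (hv : v ∈ W (R := R) m d) (h : e ≤ 2 * m)
    (b : Bool) : P e b v ∈ W (R := R) (m + 1) (pre e b d) := by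
  have : W (R := R) m d ≤ (W (R := R) (m + 1) (pre e b d)).comap (P e b) := by
    refine Submodule.span_le.2 ?_
    rintro _ ⟨t, h1, h2, rfl⟩
    show P e b (Finsupp.single t (1 : R)) ∈ W (R := R) (m + 1) (pre e b d)
    rw [P_single]
    exact Submodule.subset_span ⟨(e, b) :: t, ⟨h, h1⟩, by rw [dirF, h2], rfl⟩
  exact this hv

omit [Par R] in
theorem P_mem {m e : ℕ} {v : V R} (hv : v ∈ Val (R := R) m) (h : e ≤ 2 * m) (b : Bool) :
    P e b v ∈ Val (R := R) (m + 1) :=
  Val_of_W_mem (P e b) _ (fun _ _ hw => W_le (P_memW hw h b)) v hv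

omit [Par R] in
theorem W_ext {m : ℕ} {D : ℕ → Bool} (f g : V R →ₗ[R] V R)
    (h : ∀ e ≤ 2 * m, ∀ b d, pre e b d = D → ∀ v ∈ W (R := R) m d, f (P e b v) = g (P e b v)) :
    ∀ v ∈ W (R := R) (m + 1) D, f v = g v := by
  have : W (R := R) (m + 1) D ≤ LinearMap.eqLocus f g := by
    refine Submodule.span_le.2 ?_
    rintro _ ⟨t, h1, h2, rfl⟩
    rcases t with _ | ⟨⟨e, b⟩, t⟩
    · exact h1.elim
    · show f (Finsupp.single ((e, b) :: t) 1) = g (Finsupp.single ((e, b) :: t) 1)
      rw [← P_single]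
      exact h e h1.1 b (dirF t) h2 _ (Submodule.subset_span ⟨t, h1.2, rfl, rfl⟩)
  exact this

omit [Par R] in
theorem W_map {m : ℕ} {D : ℕ → Bool} (f : V R →ₗ[R] V R) (U : Submodule R (V R))
    (h : ∀ e ≤ 2 * m, ∀ b d, pre e b d = D → ∀ v ∈ W (R := R) m d, f (P e b v) ∈ U) :
    ∀ v ∈ W (R := R) (m + 1) D, f v ∈ U := by
  have : W (R := R) (m + 1) D ≤ U.comap f := by
    refine Submodule.span_le.2 ?_
    rintro _ ⟨t, h1, h2, rfl⟩
    rcases t with _ | ⟨⟨e, b⟩, t⟩
    · exact h1.elim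
    · show f (Finsupp.single ((e, b) :: t) 1) ∈ U
      rw [← P_single]
      exact h e h1.1 b (dirF t) h2 _ (Submodule.subset_span ⟨t, h1.2, rfl, rfl⟩)
  exact this

omit [Par R] in
theorem Val_ext {m : ℕ} (f g : V R →ₗ[R] V R)
    (h : ∀ e ≤ 2 * m, ∀ b d, ∀ v ∈ W (R := R) m d, f (P e b v) = g (P e b v)) :
    ∀ v ∈ Val (R := R) (m + 1), f v = g v :=
  Val_of_W f g fun _ => W_ext f g fun e he b d _ => h e he b d

omit [Par R] in
theorem B_memW {m l : ℕ} {d : ℕ → Bool} {v : V R} (hv : v ∈ W (R := R) m d) (h : l ≤ 2 * m)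
    (c : Bool) : B l c v ∈ W (R := R) (m + 1) (insD l c d) := by
  induction m generalizing l d v with
  | zero =>
    obtain rfl : l = 0 := by omega
    rw [B_zero, ins_zero]
    exact P_memW hv h c
  | succ m ih =>
    cases l with
    | zero =>
      rw [B_zero, ins_zero]
      exact P_memW hv (by omega) c
    | succ l =>
      refine W_map (B (l + 1) c) _ ?_ v hv
      rintro e he b d' rfl w hw
      by_cases hc : l ≤ e
      · rw [B_le hc, ins_pre_le hc]
        exact P_memW (ih hw (by omega)) (by omega) b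
      · obtain ⟨l', rfl⟩ : ∃ l', l = l' + 1 := ⟨l - 1, by omega⟩
        rw [B_ge (by omega), ins_pre_ge (by omega)]
        exact P_memW (ih hw (by omega)) (by omega) b

omit [Par R] in
theorem B_mem {m l : ℕ} {v : V R} (hv : v ∈ Val (R := R) m) (h : l ≤ 2 * m) (c : Bool) :
    B l c v ∈ Val (R := R) (m + 1) :=
  Val_of_W_mem (B l c) _ (fun _ _ hw => W_le (B_memW hw h c)) v hv

omit [Par R] in
/-- births commute -/
theorem bb {m i j : ℕ} (hij : i ≤ j) (hj : j ≤ 2 * m) (c c' : Bool) {v : V R}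
    (hv : v ∈ Val (R := R) m) : B (j + 2) c' (B i c v) = B i c (B j c' v) := by
  induction m generalizing i j v with
  | zero =>
    obtain rfl : j = 0 := by omega
    obtain rfl : i = 0 := by omega
    rw [B_zero, B_ge (le_refl 0), B_zero, B_zero]
  | succ m ih =>
    cases i with
    | zero =>
      rw [B_zero, B_ge (Nat.zero_le _), B_zero]
    | succ i =>
      obtain ⟨j, rfl⟩ : ∃ j', j = j' + 1 := ⟨j - 1, by omega⟩
      refine Val_ext ((B (j + 1 + 2) c').comp (B (i + 1) c)) ((B (i + 1) c).comp (B (j + 1) c'))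
        ?_ v hv
      intro e he b d w hw
      have hw := W_le hw
      show B (j + 1 + 2) c' (B (i + 1) c (P e b w)) = B (i + 1) c (B (j + 1) c' (P e b w))
      by_cases h1 : j ≤ e
      · rw [B_le (by omega : i ≤ e), B_le h1, B_le (by omega : j + 2 ≤ e + 2), B_le (by omega),
          ih (by omega) (by omega) hw]
      · obtain ⟨j', rfl⟩ : ∃ j', j = j' + 1 := ⟨j - 1, by omega⟩
        rw [B_ge (by omega : e ≤ j')]
        by_cases h2 : i ≤ e
        · rw [B_le h2, B_ge (by omega : e + 2 ≤ j' + 1 + 1), B_le h2, ih (by omega) (by omega) hw]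
        · obtain ⟨i', rfl⟩ : ∃ i', i = i' + 1 := ⟨i - 1, by omega⟩
          rw [B_ge (by omega : e ≤ i'), B_ge (by omega : e ≤ i'), B_ge (by omega : e ≤ j' + 1 + 1),
            ← ih (by omega : i' ≤ j') (by omega) hw]

/-! ### homogeneous states -/

omit [Par R] in
theorem pr_same {m : ℕ} {d : ℕ → Bool} {v : V R} (hv : v ∈ W (R := R) m d) {j : ℕ} {c : Bool}
    (h : d j = c) : pr j c v = v := by
  have : W (R := R) m d ≤ LinearMap.eqLocus (pr j c) LinearMap.id := by
    refine Submodule.span_le.2 ?_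
    rintro _ ⟨t, h1, h2, rfl⟩
    show pr j c (Finsupp.single t 1) = Finsupp.single t 1
    rw [pr, Finsupp.linearCombination_single, if_pos (by rw [h2, h]), one_smul]
  exact this hv

omit [Par R] in
theorem pr_other {m : ℕ} {d : ℕ → Bool} {v : V R} (hv : v ∈ W (R := R) m d) {j : ℕ} {c : Bool}
    (h : d j = !c) : pr j c v = 0 := by
  have : W (R := R) m d ≤ LinearMap.eqLocus (pr j c) (0 : V R →ₗ[R] V R) := by
    refine Submodule.span_le.2 ?_
    rintro _ ⟨t, h1, h2, rfl⟩
    show pr j c (Finsupp.single t 1) = 0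
    rw [pr, Finsupp.linearCombination_single, if_neg (by rw [h2, h]; simp), smul_zero]
  exact this hv

section
variable {n m e : ℕ} {b : Bool} {d : ℕ → Bool} {v : V R}

theorem Xp_next_par (hv : v ∈ W (R := R) n d) (h : d e = !b) :
    X (m + 1) true (e + 1) (P e b v) = P (e + 1) b v + (z : R) • P e b v := by
  rw [Xp_next0, pr_same hv h, pr_other hv h, map_zero, map_zero, sub_zero]

theorem Xp_next_anti (hv : v ∈ W (R := R) n d) (h : d e = b) :
    X (m + 1) true (e + 1) (P e b v) = P (e + 1) b v - (z : R) • B (e + 1) b (L m e v) := by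
  rw [Xp_next0, pr_same hv h, pr_other hv (c := !b) (by rw [h, Bool.not_not]), map_zero, zero_sub,
    smul_neg, sub_eq_add_neg]

theorem Xn_end_par (hv : v ∈ W (R := R) n d) (h : d e = !b) :
    X (m + 1) false (e + 1) (P (e + 1) b v) = P e b v - (z : R) • P (e + 1) b v := by
  rw [Xn_end0, pr_same hv h, pr_other hv h, map_zero, map_zero, smul_zero, sub_zero]

theorem Xn_end_anti (hv : v ∈ W (R := R) n d) (h : d e = b) :
    X (m + 1) false (e + 1) (P (e + 1) b v) =
      P e b v + (z : R) • (a : R) • B (e + 1) (!b) (L m e v) := by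
  rw [Xn_end0, pr_same hv h, pr_other hv (c := !b) (by rw [h, Bool.not_not]), map_zero, zero_sub,
    smul_neg, sub_neg_eq_add]

theorem Xp0_par (hv : v ∈ W (R := R) n d) (h : d 0 = b) :
    X (m + 1) true 0 (P (e + 1) b v) = N (m + 1) 2 e (B 1 b v) + (z : R) • P (e + 1) b v := by
  rw [Xp0_succ0, pr_same hv h, pr_other hv (c := !b) (by rw [h, Bool.not_not]), map_zero, map_zero,
    smul_zero, sub_zero]

theorem Xp0_anti (hv : v ∈ W (R := R) n d) (h : d 0 = !b) :
    X (m + 1) true 0 (P (e + 1) b v) =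
      N (m + 1) 2 e (B 1 b v) - (z : R) • (ai : R) • P 0 (!b) (N m 0 e v) := by
  rw [Xp0_succ0, pr_same hv h, pr_other hv h, map_zero, zero_sub, smul_neg, sub_eq_add_neg]

end

attribute [irreducible] X D P B blk pr

end

end Pool.Agent.Helper127.Homfly
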