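import Pool.Agent.Helper127.Homfly.E2

/-!
# Existence of the HOMFLY polynomial, part 3: relations and their first consequences
-/

set_option autoImplicit false

namespace Pool.Agent.Helper127.Homfly

open Pool.Agent.Helper454.Wh (insD delD swpD noD)
open Par

noncomputable section

set_option linter.unusedSectionVars false

/-- coefficient of a curl -/
def cf (R : Type) [CommRing R] [Par R] (b : Bool) : R := if b then ai else a

/-- the relations between the operators of the levels `m` and `m + 1` in which only crossings at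
positions `≥ p` occur -/
structure Rel (R : Type) [CommRing R] [Par R] (p m : ℕ) : Prop where
  hp : p ≤ 1
  hX0 : ∀ s j, j + 2 ≤ 2 * m → ∀ d, ∀ v ∈ W (R := R) m d, X m s j v ∈ W (R := R) m (swpD j d)
  hX : ∀ s j, p ≤ j → j ≤ 2 * m → ∀ d, ∀ v ∈ W (R := R) (m + 1) d,
    X (m + 1) s j v ∈ W (R := R) (m + 1) (swpD j d)
  pn : ∀ j, p ≤ j → j ≤ 2 * m → ∀ v ∈ Val (R := R) (m + 1),
    X (m + 1) true j (X (m + 1) false j v) = v
  np : ∀ j, p ≤ j → j ≤ 2 * m → ∀ v ∈ Val (R := R) (m + 1),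
    X (m + 1) false j (X (m + 1) true j v) = v
  xx : ∀ b c i j, p ≤ i → i + 2 ≤ j → j ≤ 2 * m → ∀ v ∈ Val (R := R) (m + 1),
    X (m + 1) b i (X (m + 1) c j v) = X (m + 1) c j (X (m + 1) b i v)
  third : ∀ i, p ≤ i → i + 1 ≤ 2 * m → ∀ v ∈ Val (R := R) (m + 1),
    X (m + 1) true i (X (m + 1) true (i + 1) (X (m + 1) true i v)) =
      X (m + 1) true (i + 1) (X (m + 1) true i (X (m + 1) true (i + 1) v))
  curl : ∀ b i, p ≤ i → i ≤ 2 * m → ∀ q, ∀ v ∈ Val (R := R) m,
    X (m + 1) b i (B i q v) = cf R b • B i (!q) v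
  slide : ∀ b i, p ≤ i → i + 1 ≤ 2 * m → ∀ q, ∀ v ∈ Val (R := R) m,
    X (m + 1) b (i + 1) (B i q v) = X (m + 1) (!b) i (B (i + 1) q v)
  xb : ∀ b i j, i ≤ j → j + 2 ≤ 2 * m → ∀ q, ∀ v ∈ Val (R := R) m,
    X (m + 1) b (j + 2) (B i q v) = B i q (X m b j v)
  bx : ∀ b i j, p ≤ j → j + 2 ≤ i → i ≤ 2 * m → ∀ q, ∀ v ∈ Val (R := R) m,
    X (m + 1) b j (B i q v) = B i q (X m b j v)

/-- the relations which contain the operators `D` -/
structure RelD (R : Type) [CommRing R] [Par R] (m : ℕ) : Prop where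
  hD : ∀ j ≤ 2 * m, ∀ d : ℕ → Bool, (d (j + 1) = !d j) → ∀ v ∈ W (R := R) (m + 1) d,
    D m j v ∈ W (R := R) m (delD j d)
  skp : ∀ j ≤ 2 * m, ∀ d : ℕ → Bool, d (j + 1) = d j → ∀ v ∈ W (R := R) (m + 1) d,
    X (m + 1) true j v - X (m + 1) false j v = (z : R) • v
  ska : ∀ j ≤ 2 * m, ∀ d : ℕ → Bool, (d (j + 1) = !d j) → ∀ v ∈ W (R := R) (m + 1) d,
    X (m + 1) false j v - X (m + 1) true j v = (z : R) • B j (!d j) (D m j v)
  zig1 : ∀ i, i + 1 ≤ 2 * m → ∀ (d : ℕ → Bool) (q : Bool), d i = q → ∀ v ∈ W (R := R) m d,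
    D m (i + 1) (B i q v) = v
  zig2 : ∀ i, i + 1 ≤ 2 * m → ∀ (d : ℕ → Bool) (q : Bool), (d i = !q) → ∀ v ∈ W (R := R) m d,
    D m i (B (i + 1) q v) = v

/-! ### inverses -/

section inv
variable {α : Type} {S : Set α} {A A' C C' : α → α}

theorem mixN (hA' : ∀ v ∈ S, A' v ∈ S) (hC' : ∀ v ∈ S, C' v ∈ S) (hA : ∀ v ∈ S, A v ∈ S)
    (a2 : ∀ v ∈ S, A' (A v) = v) (a1 : ∀ v ∈ S, A (A' v) = v)
    (c2 : ∀ v ∈ S, C' (C v) = v) (c1 : ∀ v ∈ S, C (C' v) = v) (hC : ∀ v ∈ S, C v ∈ S)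
    (h : ∀ v ∈ S, A (C (A v)) = C (A (C v))) (v : α) (hv : v ∈ S) :
    A (C' (A' v)) = C' (A' (C v)) := by
  have e := h (C' (A' v)) (hC' _ (hA' _ hv))
  rw [c1 _ (hA' _ hv), a1 _ hv] at e
  rw [← e, a2 _ (hC _ (hA _ (hC' _ (hA' _ hv)))), c2 _ (hA _ (hC' _ (hA' _ hv)))]

theorem mixN' (hA' : ∀ v ∈ S, A' v ∈ S) (hC' : ∀ v ∈ S, C' v ∈ S) (hA : ∀ v ∈ S, A v ∈ S)
    (a2 : ∀ v ∈ S, A' (A v) = v) (a1 : ∀ v ∈ S, A (A' v) = v)
    (c2 : ∀ v ∈ S, C' (C v) = v) (c1 : ∀ v ∈ S, C (C' v) = v) (hC : ∀ v ∈ S, C v ∈ S)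
    (h : ∀ v ∈ S, A (C (A v)) = C (A (C v))) (v : α) (hv : v ∈ S) :
    A' (C' (A' v)) = C' (A' (C' v)) := by
  have e := h (C' (A' (C' v))) (hC' _ (hA' _ (hC' _ hv)))
  rw [c1 _ (hA' _ (hC' _ hv)), a1 _ (hC' _ hv), c1 _ hv] at e
  conv_lhs => rw [← e]
  rw [a2 _ (hC _ (hA _ (hC' _ (hA' _ (hC' _ hv))))), c2 _ (hA _ (hC' _ (hA' _ (hC' _ hv)))),
    a2 _ (hC' _ (hA' _ (hC' _ hv)))]

theorem mixP (hA' : ∀ v ∈ S, A' v ∈ S) (hA : ∀ v ∈ S, A v ∈ S)
    (a1 : ∀ v ∈ S, A (A' v) = v)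
    (c2 : ∀ v ∈ S, C' (C v) = v) (hC : ∀ v ∈ S, C v ∈ S)
    (h : ∀ v ∈ S, A (C (A v)) = C (A (C v))) (v : α) (hv : v ∈ S) :
    C' (A (C v)) = A (C (A' v)) := by
  have e := h (A' v) (hA' _ hv)
  rw [a1 _ hv] at e
  rw [e, c2 _ (hA _ (hC _ (hA' _ hv)))]

theorem commInv (hA' : ∀ v ∈ S, A' v ∈ S) (hC : ∀ v ∈ S, C v ∈ S)
    (a2 : ∀ v ∈ S, A' (A v) = v) (a1 : ∀ v ∈ S, A (A' v) = v)
    (h : ∀ v ∈ S, A (C v) = C (A v)) (v : α) (hv : v ∈ S) :
    A' (C v) = C (A' v) := by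
  have e := h (A' v) (hA' _ hv)
  rw [a1 _ hv] at e
  rw [← e, a2 _ (hC _ (hA' _ hv))]

end inv

/-! ### directions -/

theorem rotN_succ (s k : ℕ) (d : ℕ → Bool) : swpD (s + k) (rotN s k d) = rotN s (k + 1) d := by
  funext j
  simp only [rotN, swpD]
  split_ifs <;> dtac

theorem rotN_zero (s : ℕ) (d : ℕ → Bool) : rotN s 0 d = d := by
  funext j
  simp only [rotN]
  split_ifs <;> dtac

theorem rotL_succ (s k : ℕ) (d : ℕ → Bool) : rotL s k (swpD (s + k) d) = rotL s (k + 1) d := by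
  funext j
  simp only [rotL, swpD]
  split_ifs <;> dtac

theorem rotL_zero (s : ℕ) (d : ℕ → Bool) : rotL s 0 d = d := by
  funext j
  simp only [rotL]
  split_ifs <;> dtac

section
variable {R : Type} [CommRing R] [Par R] {p m : ℕ}

theorem Rel.mem0 (H : Rel R p m) (b : Bool) (j : ℕ) (hj : j + 2 ≤ 2 * m) :
    ∀ v ∈ Val (R := R) m, X m b j v ∈ Val (R := R) m :=
  Val_of_W_mem (X m b j) _ fun d _ hw => W_le (H.hX0 b j hj d _ hw)

theorem Rel.mem (H : Rel R p m) (b : Bool) (j : ℕ) (hp : p ≤ j) (hj : j ≤ 2 * m) :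
    ∀ v ∈ Val (R := R) (m + 1), X (m + 1) b j v ∈ Val (R := R) (m + 1) :=
  Val_of_W_mem (X (m + 1) b j) _ fun d _ hw => W_le (H.hX b j hp hj d _ hw)

theorem Rel.braidN (H : Rel R p m) (c : Bool) {j : ℕ} (hp : p ≤ j) (hj : j + 1 ≤ 2 * m) {v : V R}
    (hv : v ∈ Val (R := R) (m + 1)) :
    X (m + 1) c j (X (m + 1) false (j + 1) (X (m + 1) false j v)) =
      X (m + 1) false (j + 1) (X (m + 1) false j (X (m + 1) c (j + 1) v)) := by
  have q1 : p ≤ j + 1 := by omega
  have q2 : j ≤ 2 * m := by omega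
  cases c
  · exact mixN' (S := (Val (R := R) (m + 1) : Set (V R))) (H.mem false j hp q2)
      (H.mem false (j + 1) q1 hj) (H.mem true j hp q2) (H.np j hp q2) (H.pn j hp q2)
      (H.np (j + 1) q1 hj) (H.pn (j + 1) q1 hj) (H.mem true (j + 1) q1 hj) (H.third j hp hj) v hv
  · exact mixN (S := (Val (R := R) (m + 1) : Set (V R))) (H.mem false j hp q2)
      (H.mem false (j + 1) q1 hj) (H.mem true j hp q2) (H.np j hp q2) (H.pn j hp q2)
      (H.np (j + 1) q1 hj) (H.pn (j + 1) q1 hj) (H.mem true (j + 1) q1 hj) (H.third j hp hj) v hv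

theorem Rel.braidP (H : Rel R p m) (c : Bool) {j : ℕ} (hp : p ≤ j) (hj : j + 1 ≤ 2 * m) {v : V R}
    (hv : v ∈ Val (R := R) (m + 1)) :
    X (m + 1) c (j + 1) (X (m + 1) true j (X (m + 1) true (j + 1) v)) =
      X (m + 1) true j (X (m + 1) true (j + 1) (X (m + 1) c j v)) := by
  have q1 : p ≤ j + 1 := by omega
  have q2 : j ≤ 2 * m := by omega
  cases c
  · exact mixP (S := (Val (R := R) (m + 1) : Set (V R))) (H.mem false j hp q2)
      (H.mem true j hp q2) (H.pn j hp q2)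
      (H.np (j + 1) q1 hj) (H.mem true (j + 1) q1 hj) (H.third j hp hj) v hv
  · exact (H.third j hp hj v hv).symm

/-! ### membership -/

theorem Rel.N_memW (H : Rel R p m) {s k : ℕ} (hs : p ≤ s) (h : s + k ≤ 2 * m + 1) {d : ℕ → Bool}
    {v : V R} (hv : v ∈ W (R := R) (m + 1) d) :
    N (m + 1) s k v ∈ W (R := R) (m + 1) (rotN s k d) := by
  induction k with
  | zero => rw [rotN_zero]; exact hv
  | succ k ih =>
    rw [← rotN_succ]
    exact H.hX _ _ (by omega) (by omega) _ _ (ih (by omega))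

theorem Rel.N_memW0 (H : Rel R p m) {s k : ℕ} (h : s + k + 1 ≤ 2 * m) {d : ℕ → Bool} {v : V R}
    (hv : v ∈ W (R := R) m d) : N m s k v ∈ W (R := R) m (rotN s k d) := by
  induction k with
  | zero => rw [rotN_zero]; exact hv
  | succ k ih =>
    rw [← rotN_succ]
    exact H.hX0 _ _ (by omega) _ _ (ih (by omega))

theorem Rel.N_mem (H : Rel R p m) {s k : ℕ} (hs : p ≤ s) (h : s + k ≤ 2 * m + 1) {v : V R}
    (hv : v ∈ Val (R := R) (m + 1)) : N (m + 1) s k v ∈ Val (R := R) (m + 1) := by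
  induction k with
  | zero => exact hv
  | succ k ih => exact H.mem _ _ (by omega) (by omega) _ (ih (by omega))

theorem Rel.N_mem0 (H : Rel R p m) {s k : ℕ} (h : s + k + 1 ≤ 2 * m) {v : V R}
    (hv : v ∈ Val (R := R) m) : N m s k v ∈ Val (R := R) m := by
  induction k with
  | zero => exact hv
  | succ k ih => exact H.mem0 _ _ (by omega) _ (ih (by omega))

/-- `pos (s+k-1)`, ..., `pos s` -/
def Lg (m s k : ℕ) : V R →ₗ[R] V R := Ll (fun j => X m true (s + j)) k

theorem Lg_zero (m s : ℕ) (v : V R) : Lg m s 0 v = v := rfl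
theorem Lg_succ (m s k : ℕ) (v : V R) : Lg m s (k + 1) v = Lg m s k (X m true (s + k) v) := rfl

theorem Lg_eq (m k : ℕ) : L m k = Lg (R := R) m 0 k := by
  unfold L Lg
  congr 1
  funext j
  rw [Nat.zero_add]

theorem Lg_head (m s k : ℕ) (v : V R) :
    Lg m s (k + 1) v = X m true s (Lg m (s + 1) k v) := by
  induction k generalizing v with
  | zero => rfl
  | succ k ih =>
    rw [Lg_succ, ih, Lg_succ, show s + 1 + k = s + (k + 1) by omega]

theorem L_head (m k : ℕ) (v : V R) : L m (k + 1) v = X m true 0 (Lg m 1 k v) := by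
  rw [Lg_eq, Lg_head]

theorem N_head (m s k : ℕ) (v : V R) :
    N m s (k + 1) v = N m (s + 1) k (X m false s v) := by
  induction k with
  | zero => rfl
  | succ k ih =>
    rw [N_succ, ih, N_succ, show s + 1 + k = s + (k + 1) by omega]

theorem N_add (m s k l : ℕ) (v : V R) : N m s (k + l) v = N m (s + k) l (N m s k v) := by
  induction l with
  | zero => rfl
  | succ l ih =>
    rw [← Nat.add_assoc, N_succ, ih, N_succ, Nat.add_assoc]

theorem Lg_add (m s k l : ℕ) (v : V R) : Lg m s (k + l) v = Lg m s k (Lg m (s + k) l v) := by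
  induction l generalizing v with
  | zero => rfl
  | succ l ih =>
    rw [← Nat.add_assoc, Lg_succ, ih, Lg_succ, Nat.add_assoc]

theorem Rel.Lg_memW (H : Rel R p m) {s k : ℕ} (hs : p ≤ s) (h : s + k ≤ 2 * m + 1) {d : ℕ → Bool}
    {v : V R} (hv : v ∈ W (R := R) (m + 1) d) :
    Lg (m + 1) s k v ∈ W (R := R) (m + 1) (rotL s k d) := by
  induction k generalizing v d with
  | zero => rw [rotL_zero]; exact hv
  | succ k ih =>
    rw [← rotL_succ]
    exact ih (by omega) (H.hX _ _ (by omega) (by omega) _ _ hv)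

theorem Rel.Lg_memW0 (H : Rel R p m) {s k : ℕ} (h : s + k + 1 ≤ 2 * m) {d : ℕ → Bool} {v : V R}
    (hv : v ∈ W (R := R) m d) : Lg m s k v ∈ W (R := R) m (rotL s k d) := by
  induction k generalizing v d with
  | zero => rw [rotL_zero]; exact hv
  | succ k ih =>
    rw [← rotL_succ]
    exact ih (by omega) (H.hX0 _ _ (by omega) _ _ hv)

theorem Rel.L_memW (H : Rel R 0 m) {k : ℕ} (h : k ≤ 2 * m + 1) {d : ℕ → Bool} {v : V R}
    (hv : v ∈ W (R := R) (m + 1) d) : L (m + 1) k v ∈ W (R := R) (m + 1) (rotL 0 k d) := by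
  rw [Lg_eq]
  exact H.Lg_memW (le_refl 0) (by omega) hv

theorem Rel.L_memW0 (H : Rel R p m) {k : ℕ} (h : k + 1 ≤ 2 * m) {d : ℕ → Bool} {v : V R}
    (hv : v ∈ W (R := R) m d) : L m k v ∈ W (R := R) m (rotL 0 k d) := by
  rw [Lg_eq]
  exact H.Lg_memW0 (by omega) hv

theorem Rel.Lg_mem (H : Rel R p m) {s k : ℕ} (hs : p ≤ s) (h : s + k ≤ 2 * m + 1) {v : V R}
    (hv : v ∈ Val (R := R) (m + 1)) : Lg (m + 1) s k v ∈ Val (R := R) (m + 1) := by
  induction k generalizing v with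
  | zero => exact hv
  | succ k ih => exact ih (by omega) (H.mem _ _ (by omega) (by omega) _ hv)

theorem Rel.Lg_mem0 (H : Rel R p m) {s k : ℕ} (h : s + k + 1 ≤ 2 * m) {v : V R}
    (hv : v ∈ Val (R := R) m) : Lg m s k v ∈ Val (R := R) m := by
  induction k generalizing v with
  | zero => exact hv
  | succ k ih => exact ih (by omega) (H.mem0 _ _ (by omega) _ hv)

theorem Rel.L_mem (H : Rel R 0 m) {k : ℕ} (h : k ≤ 2 * m + 1) {v : V R}
    (hv : v ∈ Val (R := R) (m + 1)) : L (m + 1) k v ∈ Val (R := R) (m + 1) := by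
  rw [Lg_eq]
  exact H.Lg_mem (le_refl 0) (by omega) hv

theorem Rel.L_mem0 (H : Rel R p m) {k : ℕ} (h : k + 1 ≤ 2 * m) {v : V R}
    (hv : v ∈ Val (R := R) m) : L m k v ∈ Val (R := R) m := by
  rw [Lg_eq]
  exact H.Lg_mem0 (by omega) hv

/-! ### moving crossings through `N` and `L` -/

theorem Rel.NX_right (H : Rel R p m) (c : Bool) {s k j : ℕ} (hs : p ≤ s) (h : s + k + 1 ≤ j)
    (hj : j ≤ 2 * m) {v : V R} (hv : v ∈ Val (R := R) (m + 1)) :
    X (m + 1) c j (N (m + 1) s k v) = N (m + 1) s k (X (m + 1) c j v) := by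
  induction k with
  | zero => rfl
  | succ k ih =>
    rw [N_succ, N_succ, ← ih (by omega), ← H.xx false c _ _ (by omega) (by omega) hj _
      (H.N_mem hs (by omega) hv)]

theorem Rel.NX_left (H : Rel R p m) (c : Bool) {s k j : ℕ} (hp : p ≤ j) (h : j + 2 ≤ s)
    (hk : s + k ≤ 2 * m + 1) {v : V R} (hv : v ∈ Val (R := R) (m + 1)) :
    X (m + 1) c j (N (m + 1) s k v) = N (m + 1) s k (X (m + 1) c j v) := by
  induction k with
  | zero => rfl
  | succ k ih =>
    rw [N_succ, N_succ, ← ih (by omega), H.xx c false _ _ hp (by omega) (by omega) _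
      (H.N_mem (by omega) (by omega) hv)]

theorem Rel.NX_slide (H : Rel R p m) (c : Bool) {s k j : ℕ} (hs : p ≤ s) (h : s ≤ j)
    (hj : j + 2 ≤ s + k) (hk : s + k ≤ 2 * m + 1) {v : V R} (hv : v ∈ Val (R := R) (m + 1)) :
    X (m + 1) c j (N (m + 1) s k v) = N (m + 1) s k (X (m + 1) c (j + 1) v) := by
  induction k with
  | zero => omega
  | succ k ih =>
    by_cases hc : j + 2 ≤ s + k
    · rw [N_succ, N_succ, ← ih hc (by omega), H.xx c false _ _ (by omega) hc (by omega) _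
        (H.N_mem hs (by omega) hv)]
    · obtain ⟨k', rfl⟩ : ∃ k', k = k' + 1 := ⟨k - 1, by omega⟩
      obtain rfl : j = s + k' := by omega
      rw [N_succ, N_succ, N_succ, N_succ, show s + (k' + 1) = s + k' + 1 by omega,
        H.braidN c (by omega) (by omega) (H.N_mem hs (by omega) hv),
        H.NX_right c hs (by omega) (by omega) hv]

theorem Rel.LX_far (H : Rel R p m) (c : Bool) {s k j : ℕ} (hs : p ≤ s) (h : s + k + 1 ≤ j)
    (hj : j ≤ 2 * m) {v : V R} (hv : v ∈ Val (R := R) (m + 1)) :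
    X (m + 1) c j (Lg (m + 1) s k v) = Lg (m + 1) s k (X (m + 1) c j v) := by
  induction k generalizing v with
  | zero => rfl
  | succ k ih =>
    rw [Lg_succ, Lg_succ, ih (by omega) (H.mem _ _ (by omega) (by omega) _ hv),
      H.xx true c _ _ (by omega) (by omega) hj _ hv]

theorem Rel.LX_slide (H : Rel R p m) (c : Bool) {s k j : ℕ} (hs : p ≤ s) (h : s ≤ j)
    (hj : j + 2 ≤ s + k) (hk : s + k ≤ 2 * m + 1) {v : V R} (hv : v ∈ Val (R := R) (m + 1)) :
    X (m + 1) c (j + 1) (Lg (m + 1) s k v) = Lg (m + 1) s k (X (m + 1) c j v) := by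
  induction k generalizing v with
  | zero => omega
  | succ k ih =>
    by_cases hc : j + 2 ≤ s + k
    · rw [Lg_succ, Lg_succ, ih hc (by omega) (H.mem _ _ (by omega) (by omega) _ hv),
        H.xx c true _ _ (by omega) hc (by omega) _ hv]
    · obtain ⟨k', rfl⟩ : ∃ k', k = k' + 1 := ⟨k - 1, by omega⟩
      obtain rfl : j = s + k' := by omega
      rw [Lg_succ, Lg_succ, Lg_succ, Lg_succ, show s + (k' + 1) = s + k' + 1 by omega,
        H.LX_far c hs (by omega) (by omega) (H.mem _ _ (by omega) (by omega) _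
          (H.mem _ _ (by omega) (by omega) _ hv)),
        H.braidP c (by omega) (by omega) hv]

/-- `L` passes through `Lg` -/
theorem Rel.L_Lg (H : Rel R 0 m) {c l k : ℕ} (h : l + k + 1 ≤ c) (hc : c ≤ 2 * m + 1) {v : V R}
    (hv : v ∈ Val (R := R) (m + 1)) :
    L (m + 1) c (Lg (m + 1) l k v) = Lg (m + 1) (l + 1) k (L (m + 1) c v) := by
  induction k generalizing v with
  | zero => rfl
  | succ k ih =>
    rw [Lg_succ, Lg_succ, ih (by omega) (H.mem _ _ (by omega) (by omega) _ hv)]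
    congr 1
    rw [Lg_eq, show l + 1 + k = l + k + 1 by omega,
      H.LX_slide true (le_refl 0) (by omega) (by omega) (by omega) hv]

theorem Rel.NL (H : Rel R p m) {s k : ℕ} (hs : p ≤ s) (h : s + k ≤ 2 * m + 1) {v : V R}
    (hv : v ∈ Val (R := R) (m + 1)) : N (m + 1) s k (Lg (m + 1) s k v) = v := by
  induction k generalizing v with
  | zero => rfl
  | succ k ih =>
    rw [Lg_succ, N_succ, ih (by omega) (H.mem _ _ (by omega) (by omega) _ hv),
      H.np _ (by omega) (by omega) _ hv]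

/-! ### births -/

theorem Rel.NB_right (H : Rel R p m) {s k l : ℕ} (hs : p ≤ s) (h : s + k + 1 ≤ l)
    (hl : l ≤ 2 * m) (q : Bool) {v : V R} (hv : v ∈ Val (R := R) m) :
    N (m + 1) s k (B l q v) = B l q (N m s k v) := by
  induction k with
  | zero => rfl
  | succ k ih =>
    rw [N_succ, N_succ, ih (by omega), H.bx false l _ (by omega) (by omega) hl q _
      (H.N_mem0 (by omega) hv)]

theorem Rel.NB_left (H : Rel R p m) {s k l : ℕ} (h : l ≤ s) (hk : s + k + 1 ≤ 2 * m) (q : Bool)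
    {v : V R} (hv : v ∈ Val (R := R) m) :
    N (m + 1) (s + 2) k (B l q v) = B l q (N m s k v) := by
  induction k with
  | zero => rfl
  | succ k ih =>
    rw [N_succ, N_succ, ih (by omega), show s + 2 + k = s + k + 2 by omega,
      H.xb false l _ (by omega) (by omega) q _ (H.N_mem0 (by omega) hv)]

/-- an over strand passes over a birth -/
theorem Rel.over_birth (H : Rel R p m) {l : ℕ} (hp : p ≤ l) (h : l + 1 ≤ 2 * m) (q : Bool)
    {v : V R} (hv : v ∈ Val (R := R) m) :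
    X (m + 1) false (l + 1) (X (m + 1) false l (B (l + 1) q v)) = B l q v := by
  have e := H.slide true l hp h q v hv
  rw [Bool.not_true] at e
  rw [← e, H.np _ (by omega) (by omega) _ (B_mem hv (by omega) q)]

theorem Rel.NB_mid (H : Rel R p m) {s k l : ℕ} (hs : p ≤ s) (h : s ≤ l) (hl : l ≤ s + k)
    (hk : s + k + 1 ≤ 2 * m) (q : Bool) {v : V R} (hv : v ∈ Val (R := R) m) :
    N (m + 1) s (k + 2) (B (l + 1) q v) = B l q (N m s k v) := by
  induction k with
  | zero =>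
    obtain rfl : l = s := by omega
    exact H.over_birth hs (by omega) q hv
  | succ k ih =>
    by_cases hc : l ≤ s + k
    · have ih' := ih hc (by omega)
      rw [show k + 1 + 2 = (k + 2) + 1 by omega, N_succ, ih', N_succ,
        show s + (k + 2) = s + k + 2 by omega,
        H.xb false l _ (by omega) (by omega) q _ (H.N_mem0 (by omega) hv)]
    · obtain rfl : l = s + k + 1 := by omega
      rw [show k + 1 + 2 = (k + 1) + 1 + 1 by omega, N_succ, N_succ,
        H.NB_right hs (by omega) (by omega) q hv, show s + (k + 1) = s + k + 1 by omega,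
        show s + (k + 1 + 1) = s + k + 1 + 1 by omega,
        H.over_birth (by omega) (by omega) q (H.N_mem0 (by omega) hv)]

theorem Rel.LB_far (H : Rel R p m) {s k l : ℕ} (hs : p ≤ s) (h : s + k + 1 ≤ l)
    (hl : l ≤ 2 * m) (q : Bool) {v : V R} (hv : v ∈ Val (R := R) m) :
    Lg (m + 1) s k (B l q v) = B l q (Lg m s k v) := by
  induction k generalizing v with
  | zero => rfl
  | succ k ih =>
    rw [Lg_succ, Lg_succ, H.bx true l _ (by omega) (by omega) hl q _ hv,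
      ih (by omega) (H.mem0 _ _ (by omega) _ hv)]

/-- an over strand passes over a birth, to the left -/
theorem Rel.over_birth' (H : Rel R p m) {l : ℕ} (hp : p ≤ l) (h : l + 1 ≤ 2 * m) (q : Bool)
    {v : V R} (hv : v ∈ Val (R := R) m) :
    X (m + 1) true l (X (m + 1) true (l + 1) (B l q v)) = B (l + 1) q v := by
  have e := H.slide true l hp h q v hv
  rw [Bool.not_true] at e
  rw [e, H.pn _ (by omega) (by omega) _ (B_mem hv (by omega) q)]

theorem Rel.LB_mid (H : Rel R p m) {s k l : ℕ} (hs : p ≤ s) (h : s ≤ l) (hl : l ≤ s + k)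
    (hk : s + k + 1 ≤ 2 * m) (q : Bool) {v : V R} (hv : v ∈ Val (R := R) m) :
    Lg (m + 1) s (k + 2) (B l q v) = B (l + 1) q (Lg m s k v) := by
  induction k generalizing v with
  | zero =>
    obtain rfl : l = s := by omega
    exact H.over_birth' hs (by omega) q hv
  | succ k ih =>
    by_cases hc : l ≤ s + k
    · rw [show k + 1 + 2 = (k + 2) + 1 by omega, Lg_succ (m + 1) s (k + 2), Lg_succ m s k,
        show s + (k + 2) = s + k + 2 by omega, H.xb true l _ (by omega) (by omega) q _ hv,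
        ih hc (by omega) (H.mem0 _ _ (by omega) _ hv)]
    · obtain rfl : l = s + k + 1 := by omega
      rw [show k + 1 + 2 = (k + 1) + 1 + 1 by omega, Lg_succ (m + 1) s (k + 1 + 1),
        Lg_succ (m + 1) s (k + 1), show s + (k + 1) = s + k + 1 by omega,
        show s + (k + 1 + 1) = s + k + 1 + 1 by omega,
        H.over_birth' (by omega) (by omega) q hv, H.LB_far hs (by omega) (by omega) q hv]

/-- the arc born at `s + k` whose left end moves to `s` is the arc born at `s` whose right end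
moves to the right -/
theorem Rel.LB_zero (H : Rel R p m) {s k : ℕ} (hs : p ≤ s) (hk : s + k ≤ 2 * m) (q : Bool)
    {v : V R} (hv : v ∈ Val (R := R) m) :
    Lg (m + 1) s k (B (s + k) q v) = N (m + 1) (s + 1) k (B s q v) := by
  induction k with
  | zero => rfl
  | succ k ih =>
    have e := H.slide false (s + k) (by omega) (by omega) q v hv
    rw [Bool.not_false] at e
    rw [Lg_succ, show s + (k + 1) = s + k + 1 by omega, ← e,
      ← H.LX_far false hs (by omega) (by omega) (B_mem hv (by omega) q), ih (by omega), N_succ,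
      show s + 1 + k = s + k + 1 by omega]

theorem N_P (m k e : ℕ) (b : Bool) (v : V R) :
    N (m + 1) (e + 1) k (P e b v) = P (e + k) b v := by
  induction k with
  | zero => rfl
  | succ k ih => rw [N_succ, ih, show e + 1 + k = e + k + 1 by omega, Xn_next]; rfl

theorem Rel.LB0 (H : Rel R 0 m) {k : ℕ} (hk : k ≤ 2 * m) (q : Bool) {v : V R}
    (hv : v ∈ Val (R := R) m) : L (m + 1) k (B k q v) = P k q v := by
  have := H.LB_zero (s := 0) (k := k) (le_refl 0) (by omega) q hv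
  rw [Nat.zero_add, B_zero, N_P, Nat.zero_add] at this
  rw [Lg_eq, this]

theorem Rel.LB1 (H : Rel R 0 m) {k i : ℕ} (h : i ≤ k) (hk : k + 1 ≤ 2 * m) (q : Bool) {v : V R}
    (hv : v ∈ Val (R := R) m) : L (m + 1) (k + 2) (B i q v) = B (i + 1) q (L m k v) := by
  rw [Lg_eq, Lg_eq]
  exact H.LB_mid (le_refl 0) (by omega) (by omega) (by omega) q hv

theorem Rel.LB2 (H : Rel R 0 m) {k i : ℕ} (h : k < i) (hi : i ≤ 2 * m) (q : Bool) {v : V R}
    (hv : v ∈ Val (R := R) m) : L (m + 1) k (B i q v) = B i q (L m k v) := by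
  rw [Lg_eq, Lg_eq]
  exact H.LB_far (le_refl 0) (by omega) hi q hv

/-- `L_{c+2} P_c = Lg_{1,c} B_{c+1} L_c` -/
theorem Rel.LP (H : Rel R 0 m) {c : ℕ} (hc : c + 1 ≤ 2 * m) (q : Bool) {v : V R}
    (hv : v ∈ Val (R := R) m) :
    L (m + 1) (c + 2) (P c q v) = Lg (m + 1) 1 c (B (c + 1) q (L m c v)) := by
  rw [← H.LB0 (by omega) q hv, Lg_eq (m + 1) c, H.L_Lg (by omega) (by omega)
    (B_mem hv (by omega) q), H.LB1 (le_refl c) hc q hv, Nat.zero_add]

end

end

end Pool.Agent.Helper127.Homfly
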