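import Pool.Agent.Helper127.Homfly.E4

/-!
# Existence of the HOMFLY polynomial, part 5: the induction step, positions `≥ 1`
-/

set_option autoImplicit false

namespace Pool.Agent.Helper127.Homfly

open Pool.Agent.Helper454.Wh (insD delD swpD noD)
open Par

noncomputable section

set_option linter.unusedSectionVars false

theorem cases4 (j e : ℕ) :
    j + 1 < e ∨ e = j + 1 ∨ j = e ∨ ∃ j', j = j' + 1 ∧ e ≤ j' := by
  rcases Nat.lt_trichotomy (j + 1) e with h | h | h
  · exact Or.inl h
  · exact Or.inr (Or.inl h.symm)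
  · rcases Nat.lt_or_ge e j with h' | h'
    · exact Or.inr (Or.inr (Or.inr ⟨j - 1, by omega, by omega⟩))
    · exact Or.inr (Or.inr (Or.inl (by omega)))

theorem two (x b : Bool) : x = b ∨ x = !b := by cases x <;> cases b <;> simp

theorem ins_lt {i j : ℕ} (h : j < i) (q : Bool) (d : ℕ → Bool) : insD i q d j = d j := by
  simp only [insD]; split_ifs <;> dtac
theorem ins_l (i : ℕ) (q : Bool) (d : ℕ → Bool) : insD i q d i = q := by simp [insD]
theorem ins_r (i : ℕ) (q : Bool) (d : ℕ → Bool) : insD i q d (i + 1) = !q := by simp [insD]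
theorem ins_ge {i j : ℕ} (h : i ≤ j) (q : Bool) (d : ℕ → Bool) : insD i q d (j + 2) = d j := by
  simp only [insD]; split_ifs <;> dtac
theorem pre_0 (e : ℕ) (b : Bool) (d : ℕ → Bool) : pre e b d 0 = b := by simp [pre]
theorem pre_e (e : ℕ) (b : Bool) (d : ℕ → Bool) : pre e b d (e + 1) = !b := by simp [pre]
theorem pre_lt {e j : ℕ} (h : j < e) (b : Bool) (d : ℕ → Bool) : pre e b d (j + 1) = d j := by
  simp only [pre]; split_ifs <;> dtac
theorem pre_ge {e j : ℕ} (h : e ≤ j) (b : Bool) (d : ℕ → Bool) : pre e b d (j + 2) = d j := by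
  simp only [pre]; split_ifs <;> dtac
theorem rotL_s (s k : ℕ) (d : ℕ → Bool) : rotL s k d s = d (s + k) := by simp [rotL]
theorem rotL_mid {s k j : ℕ} (h : s ≤ j) (h2 : j < s + k) (d : ℕ → Bool) :
    rotL s k d (j + 1) = d j := by
  simp only [rotL]; split_ifs <;> dtac
theorem rotL_gt {s k j : ℕ} (h : s + k < j) (d : ℕ → Bool) : rotL s k d j = d j := by
  simp only [rotL]; split_ifs <;> dtac
theorem rotN_lt {s k j : ℕ} (h : j < s) (d : ℕ → Bool) : rotN s k d j = d j := by
  simp only [rotN]; split_ifs <;> dtac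
theorem rotN_mid {s k j : ℕ} (h : s ≤ j) (h2 : j < s + k) (d : ℕ → Bool) :
    rotN s k d j = d (j + 1) := by
  simp only [rotN]; split_ifs <;> dtac
theorem rotN_e (s k : ℕ) (d : ℕ → Bool) : rotN s k d (s + k) = d s := by simp [rotN]
theorem rotN_gt {s k j : ℕ} (h : s + k < j) (d : ℕ → Bool) : rotN s k d j = d j := by
  simp only [rotN]; split_ifs <;> dtac

section
variable {R : Type} [CommRing R] [Par R] {m : ℕ}

theorem new_hX (H : Rel R 0 m) (s : Bool) (j : ℕ) (hj : j + 1 ≤ 2 * (m + 1)) (D : ℕ → Bool) :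
    ∀ v ∈ W (R := R) (m + 1 + 1) D,
      X (m + 1 + 1) s (j + 1) v ∈ W (R := R) (m + 1 + 1) (swpD (j + 1) D) := by
  refine W_map _ _ ?_
  rintro e he b d rfl w hw
  rcases cases4 j e with h | rfl | rfl | ⟨j', rfl, h⟩
  · rw [X_lt _ _ h, swp_pre_lt h]
    exact P_memW (H.hX _ _ (by omega) (by omega) _ _ hw) he b
  · have hL := H.L_memW (k := j) (by omega) hw
    have h1 : P j b w ∈ W (R := R) (m + 1 + 1) (pre j b d) := P_memW hw (by omega) b
    rw [swp_pre_end]
    cases s
    · rcases two (d j) b with hd | hd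
      · rw [Xn_end_anti hw hd]
        have h2 := B_memW hL (l := j + 1) (by omega) (!b)
        rw [rot_pre2 hd] at h2
        exact add_mem h1 (Submodule.smul_mem _ _ (Submodule.smul_mem _ _ h2))
      · rw [Xn_end_par hw hd]
        have h2 := P_memW hw he b
        rw [← pre_par hd] at h2
        exact sub_mem h1 (Submodule.smul_mem _ _ h2)
    · rw [Xp_end]
      exact h1
  · have hL := H.L_memW (k := j) (by omega) hw
    have h1 : P (j + 1) b w ∈ W (R := R) (m + 1 + 1) (pre (j + 1) b d) := P_memW hw (by omega) b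
    rw [swp_pre_next]
    cases s
    · rw [Xn_next]
      exact h1
    · rcases two (d j) b with hd | hd
      · rw [Xp_next_anti hw hd]
        have h2 := B_memW hL (l := j + 1) (by omega) b
        rw [rot_pre1 hd] at h2
        exact sub_mem h1 (Submodule.smul_mem _ _ h2)
      · rw [Xp_next_par hw hd]
        have h2 := P_memW hw he b
        rw [pre_par hd] at h2
        exact add_mem h1 (Submodule.smul_mem _ _ h2)
  · rw [X_ge _ _ h, swp_pre_ge h]
    exact P_memW (H.hX _ _ (by omega) (by omega) _ _ hw) he b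

theorem new_curl (H : Rel R 0 m) (s : Bool) (i : ℕ) (hi : i ≤ 2 * (m + 1)) (q : Bool) :
    ∀ v ∈ Val (R := R) (m + 1), X (m + 1 + 1) s i (B i q v) = cf R s • B i (!q) v := by
  cases i with
  | zero =>
    intro v hv
    rw [B_zero, B_zero]
    cases s
    · exact Xn0_zero _ _ _
    · exact Xp0_zero _ _ _
  | succ i =>
    refine Val_ext ((X (m + 1 + 1) s (i + 1)).comp (B (i + 1) q))
      (cf R s • (B (i + 1) (!q) : V R →ₗ[R] V R)) ?_
    intro c hc b d u hu
    have hu := W_le hu
    show X (m + 1 + 1) s (i + 1) (B (i + 1) q (P c b u)) = cf R s • B (i + 1) (!q) (P c b u)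
    by_cases h : i ≤ c
    · rw [B_le h, B_le h, X_lt _ _ (by omega), H.curl s i (by omega) (by omega) q u hu, map_smul]
    · obtain ⟨i, rfl⟩ : ∃ i', i = i' + 1 := ⟨i - 1, by omega⟩
      rw [B_ge (by omega), B_ge (by omega), X_ge _ _ (by omega),
        H.curl s i (by omega) (by omega) q u hu, map_smul]

theorem new_xb (H : Rel R 0 m) (s : Bool) (i j : ℕ) (hij : i ≤ j) (hj : j + 2 ≤ 2 * (m + 1))
    (q : Bool) : ∀ v ∈ Val (R := R) (m + 1),
      X (m + 1 + 1) s (j + 2) (B i q v) = B i q (X (m + 1) s j v) := by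
  cases i with
  | zero =>
    intro v hv
    rw [B_zero, X_ge _ _ (Nat.zero_le _), B_zero]
  | succ i =>
    obtain ⟨j, rfl⟩ : ∃ j', j = j' + 1 := ⟨j - 1, by omega⟩
    refine Val_ext ((X (m + 1 + 1) s (j + 1 + 2)).comp (B (i + 1) q))
      ((B (i + 1) q).comp (X (m + 1) s (j + 1))) ?_
    intro c hc b d u hu
    have hu' := W_le hu
    show X (m + 1 + 1) s (j + 1 + 2) (B (i + 1) q (P c b u)) =
      B (i + 1) q (X (m + 1) s (j + 1) (P c b u))
    by_cases hi : i ≤ c
    · rw [B_le hi]
      have hBu : B i q u ∈ W (R := R) (m + 1) (insD i q d) := B_memW hu (by omega) q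
      rcases cases4 j c with h | rfl | rfl | ⟨j, rfl, h⟩
      · rw [X_lt _ _ (by omega : j + 2 + 1 < c + 2), X_lt _ _ h, B_le hi,
          H.xb s i j (by omega) (by omega) q u hu']
      · cases s
        · have hdd : insD i q d (j + 2) = d j := ins_ge (by omega) q d
          rcases two (d j) b with hd | hd
          · rw [Xn_end_anti (m := m + 1) (e := j + 2) hBu (hdd.trans hd), Xn_end_anti hu hd,
              map_add, map_smul, map_smul, B_le (by omega : i ≤ j),
              H.LB1 (by omega : i ≤ j) (by omega) q hu',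
              bb (by omega : i + 1 ≤ j + 1) (by omega) _ _ (H.L_mem0 (k := j) (by omega) hu')]
          · rw [Xn_end_par (m := m + 1) (e := j + 2) hBu (hdd.trans hd), Xn_end_par hu hd,
              map_sub, map_smul, B_le (by omega : i ≤ j), B_le hi]
        · rw [Xp_end (m + 1) (j + 2), Xp_end, B_le (by omega)]
      · cases s
        · rw [Xn_next (m + 1) (j + 2), Xn_next, B_le (by omega)]
        · have hdd : insD i q d (j + 2) = d j := ins_ge (by omega) q d
          rcases two (d j) b with hd | hd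
          · rw [Xp_next_anti (m := m + 1) (e := j + 2) hBu (hdd.trans hd), Xp_next_anti hu hd,
              map_sub, map_smul, B_le (by omega : i ≤ j + 1),
              H.LB1 (by omega : i ≤ j) (by omega) q hu',
              bb (by omega : i + 1 ≤ j + 1) (by omega) _ _ (H.L_mem0 (k := j) (by omega) hu')]
          · rw [Xp_next_par (m := m + 1) (e := j + 2) hBu (hdd.trans hd), Xp_next_par hu hd,
              map_add, map_smul, B_le (by omega : i ≤ j + 1), B_le hi]
      · rw [X_ge _ _ (by omega : c + 2 ≤ j + 1 + 1), X_ge _ _ h, B_le hi,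
          H.xb s i j (by omega) (by omega) q u hu']
    · obtain ⟨i, rfl⟩ : ∃ i', i = i' + 1 := ⟨i - 1, by omega⟩
      obtain ⟨j, rfl⟩ : ∃ j', j = j' + 1 := ⟨j - 1, by omega⟩
      rw [B_ge (by omega), X_ge _ _ (by omega : c ≤ j + 1 + 1), X_ge _ _ (by omega : c ≤ j),
        B_ge (by omega), H.xb s i j (by omega) (by omega) q u hu']

theorem new_bx (H : Rel R 0 m) (s : Bool) (i j : ℕ) (hij : j + 3 ≤ i) (hi : i ≤ 2 * (m + 1))
    (q : Bool) : ∀ v ∈ Val (R := R) (m + 1),
      X (m + 1 + 1) s (j + 1) (B i q v) = B i q (X (m + 1) s (j + 1) v) := by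
  obtain ⟨i, rfl⟩ : ∃ i', i = i' + 1 := ⟨i - 1, by omega⟩
  refine Val_ext ((X (m + 1 + 1) s (j + 1)).comp (B (i + 1) q))
    ((B (i + 1) q).comp (X (m + 1) s (j + 1))) ?_
  intro c hc b d u hu
  have hu' := W_le hu
  show X (m + 1 + 1) s (j + 1) (B (i + 1) q (P c b u)) =
    B (i + 1) q (X (m + 1) s (j + 1) (P c b u))
  by_cases h : i ≤ c
  · rw [B_le h, X_lt _ _ (by omega : j + 1 < c + 2), X_lt _ _ (by omega : j + 1 < c), B_le h,
      H.bx s i j (by omega) (by omega) (by omega) q u hu']
  · obtain ⟨i, rfl⟩ : ∃ i', i = i' + 1 := ⟨i - 1, by omega⟩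
    rw [B_ge (by omega : c ≤ i)]
    have hBu : B i q u ∈ W (R := R) (m + 1) (insD i q d) := B_memW hu (by omega) q
    rcases cases4 j c with h' | rfl | rfl | ⟨j, rfl, h'⟩
    · rw [X_lt _ _ h', X_lt _ _ h', B_ge (by omega : c ≤ i),
        H.bx s i j (by omega) (by omega) (by omega) q u hu']
    · cases s
      · have hdd : insD i q d j = d j := ins_lt (by omega) q d
        rcases two (d j) b with hd | hd
        · rw [Xn_end_anti hBu (hdd.trans hd), Xn_end_anti hu hd, map_add, map_smul, map_smul,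
            B_ge (by omega : j ≤ i), H.LB2 (by omega : j < i) (by omega) q hu',
            bb (by omega : j + 1 ≤ i) (by omega) _ _ (H.L_mem0 (k := j) (by omega) hu')]
        · rw [Xn_end_par hBu (hdd.trans hd), Xn_end_par hu hd, map_sub, map_smul,
            B_ge (by omega : j ≤ i), B_ge (by omega : j + 1 ≤ i)]
      · rw [Xp_end, Xp_end, B_ge (by omega : j ≤ i)]
    · cases s
      · rw [Xn_next, Xn_next, B_ge (by omega : j + 1 ≤ i)]
      · have hdd : insD i q d j = d j := ins_lt (by omega) q d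
        rcases two (d j) b with hd | hd
        · rw [Xp_next_anti hBu (hdd.trans hd), Xp_next_anti hu hd, map_sub, map_smul,
            B_ge (by omega : j + 1 ≤ i), H.LB2 (by omega : j < i) (by omega) q hu',
            bb (by omega : j + 1 ≤ i) (by omega) _ _ (H.L_mem0 (k := j) (by omega) hu')]
        · rw [Xp_next_par hBu (hdd.trans hd), Xp_next_par hu hd, map_add, map_smul,
            B_ge (by omega : j + 1 ≤ i), B_ge (by omega : j ≤ i)]
    · rw [X_ge _ _ h', X_ge _ _ h', B_ge (by omega : c ≤ i),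
        H.bx s i j (by omega) (by omega) (by omega) q u hu']

/-- `aL_{c+1} P_c = P_0`-type computation -/
theorem Lg_P (m k : ℕ) (b : Bool) (v : V R) : Lg (m + 1) 1 k (P k b v) = P 0 b v := by
  induction k with
  | zero => rfl
  | succ k ih => rw [Lg_succ, show 1 + k = k + 1 by omega, Xp_end, ih]

theorem L_P (m k : ℕ) (b : Bool) (v : V R) :
    L (m + 1) (k + 1) (P k b v) = (ai : R) • P 0 (!b) v := by
  rw [L_head, Lg_P, Xp0_zero]

theorem Rel.L_B (H : Rel R 0 m) {k : ℕ} (hk : k ≤ 2 * m) (q : Bool) {v : V R}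
    (hv : v ∈ Val (R := R) m) : L (m + 1) (k + 1) (B k q v) = (ai : R) • P k (!q) v := by
  rw [L_succ, H.curl true k (by omega) hk q v hv, map_smul, H.LB0 hk (!q) hv]
  rfl

theorem new_slide (H : Rel R 0 m) (s : Bool) (i : ℕ) (hi : i + 2 ≤ 2 * (m + 1)) (q : Bool) :
    ∀ v ∈ Val (R := R) (m + 1),
      X (m + 1 + 1) s (i + 2) (B (i + 1) q v) = X (m + 1 + 1) (!s) (i + 1) (B (i + 2) q v) := by
  refine Val_ext ((X (m + 1 + 1) s (i + 2)).comp (B (i + 1) q))
    ((X (m + 1 + 1) (!s) (i + 1)).comp (B (i + 2) q)) ?_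
  intro c hc b d u hu
  have hu' := W_le hu
  show X (m + 1 + 1) s (i + 2) (B (i + 1) q (P c b u)) =
    X (m + 1 + 1) (!s) (i + 1) (B (i + 2) q (P c b u))
  rcases Nat.lt_trichotomy i c with h | rfl | h
  · rw [B_le (by omega : i ≤ c), B_le (by omega : i + 1 ≤ c),
      X_lt _ _ (by omega : i + 1 + 1 < c + 2), X_lt _ _ (by omega : i + 1 < c + 2),
      H.slide s i (by omega) (by omega) q u hu']
  · rw [B_le (le_refl i), B_ge (le_refl i)]
    have hBu : B i q u ∈ W (R := R) (m + 1) (insD i q d) := B_memW hu (by omega) q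
    have r1 : insD i q d (i + 1) = !q := ins_r i q d
    have r0 : insD i q d i = q := ins_l i q d
    cases s
    · rcases two q b with rfl | rfl
      · -- `q = b`
        rw [Xn_end_par (m := m + 1) (e := i + 1) hBu r1, Bool.not_false,
          Xp_next_anti (m := m + 1) (e := i) hBu r0, H.LB0 (by omega) q hu', B_le (le_refl i)]
      · rw [Xn_end_anti (m := m + 1) (e := i + 1) hBu (r1.trans (Bool.not_not b)), Bool.not_false,
          Xp_next_par (m := m + 1) (e := i) hBu r0, H.L_B (by omega) (!b) hu', map_smul,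
          a_ai, B_ge (le_refl i), Bool.not_not]
    · rw [Xp_end (m + 1) (i + 1), Bool.not_true, Xn_next]
  · obtain ⟨i, rfl⟩ : ∃ i', i = i' + 1 := ⟨i - 1, by omega⟩
    rw [B_ge (by omega : c ≤ i), B_ge (by omega : c ≤ i + 1), X_ge _ _ (by omega : c ≤ i + 1),
      X_ge _ _ (by omega : c ≤ i), H.slide s i (by omega) (by omega) q u hu']

theorem new_skp (H : Rel R 0 m) (HD : RelD R m) (j : ℕ) (hj : j ≤ 2 * (m + 1)) (D : ℕ → Bool)
    (hD : D (j + 1) = D j) : ∀ v ∈ W (R := R) (m + 1 + 1) D,
      X (m + 1 + 1) true j v - X (m + 1 + 1) false j v = (z : R) • v := by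
  refine W_ext (X (m + 1 + 1) true j - X (m + 1 + 1) false j)
    ((z : R) • (LinearMap.id : V R →ₗ[R] V R)) ?_
  rintro e he b d rfl w hw
  show X (m + 1 + 1) true j (P e b w) - X (m + 1 + 1) false j (P e b w) = (z : R) • (P e b w)
  cases j with
  | zero =>
    cases e with
    | zero =>
      rw [pre_e, pre_0] at hD
      cases b <;> simp at hD
    | succ e =>
      have hd : d 0 = b := by
        rw [pre_0, pre_lt (by omega)] at hD
        exact hD
      rw [Xp0_par hw hd, Xn0_succ]
      abel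
  | succ j =>
    rcases cases4 j e with h | rfl | rfl | ⟨j, rfl, h⟩
    · rw [X_lt _ _ h, X_lt _ _ h, ← map_sub, HD.skp j (by omega) d ?_ w hw, map_smul]
      rw [pre_lt (by omega), pre_lt (by omega)] at hD
      exact hD
    · have hd : d j = !b := by
        rw [pre_e, pre_lt (by omega)] at hD
        exact hD.symm
      rw [Xp_end, Xn_end_par hw hd]
      abel
    · have hd : d j = !b := by
        rw [pre_e, pre_ge (le_refl j)] at hD
        exact hD
      rw [Xp_next_par hw hd, Xn_next]
      abel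
    · rw [X_ge _ _ h, X_ge _ _ h, ← map_sub, HD.skp j (by omega) d ?_ w hw, map_smul]
      rw [show j + 1 + 1 + 1 = (j + 1) + 2 by omega, show j + 1 + 1 = j + 2 by omega,
        pre_ge (by omega), pre_ge h] at hD
      exact hD

theorem new_ska (H : Rel R 0 m) (HD : RelD R m) (j : ℕ) (hj : j ≤ 2 * (m + 1)) (D' : ℕ → Bool)
    (hD : D' (j + 1) = !D' j) : ∀ v ∈ W (R := R) (m + 1 + 1) D',
      X (m + 1 + 1) false j v - X (m + 1 + 1) true j v =
        (z : R) • B j (!D' j) (D (m + 1) j v) := by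
  refine W_ext (X (m + 1 + 1) false j - X (m + 1 + 1) true j)
    ((z : R) • ((B j (!D' j)).comp (D (m + 1) j) : V R →ₗ[R] V R)) ?_
  rintro e he b d rfl w hw
  show X (m + 1 + 1) false j (P e b w) - X (m + 1 + 1) true j (P e b w) =
    (z : R) • B j (!pre e b d j) (D (m + 1) j (P e b w))
  cases j with
  | zero =>
    rw [B_zero, pre_0]
    cases e with
    | zero =>
      rw [Xp0_zero, Xn0_zero, D0_zero, map_smul, smul_smul, h2, sub_smul]
    | succ e =>
      have hd : d 0 = !b := by
        rw [pre_0, pre_lt (by omega)] at hD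
        exact hD
      rw [Xp0_anti hw hd, Xn0_succ, D0_succ (by omega), map_smul]
      abel
  | succ j =>
    rcases cases4 j e with h | rfl | rfl | ⟨j, rfl, h⟩
    · obtain ⟨e, rfl⟩ : ∃ e', e = e' + 2 := ⟨e - 2, by omega⟩
      have hd : d (j + 1) = !d j := by
        rw [pre_lt (by omega), pre_lt (by omega)] at hD
        exact hD
      rw [X_lt _ _ h, X_lt _ _ h, D_le _ (by omega), B_le (by omega), ← map_sub,
        HD.ska j (by omega) d hd w hw, map_smul, pre_lt (by omega)]
    · have hd : d j = b := by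
        rw [pre_e, pre_lt (by omega)] at hD
        exact (Bool.not_inj hD).symm
      rw [Xp_end, Xn_end_anti hw hd, D_end (by omega), map_smul, pre_lt (by omega), hd]
      abel
    · have hd : d j = b := by
        rw [pre_e, pre_ge (le_refl j), Bool.not_not] at hD
        exact hD
      rw [Xp_next_anti hw hd, Xn_next, D_next (by omega), pre_e, Bool.not_not]
      abel
    · have hd : d (j + 1) = !d j := by
        rw [show j + 1 + 1 + 1 = (j + 1) + 2 by omega, show j + 1 + 1 = j + 2 by omega,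
          pre_ge (by omega), pre_ge h] at hD
        exact hD
      rw [X_ge _ _ h, X_ge _ _ h, D_ge _ h, B_ge h, ← map_sub, HD.ska j (by omega) d hd w hw,
        map_smul, show j + 1 + 1 = j + 2 by omega, pre_ge h]

theorem new_pn (H : Rel R 0 m) (j : ℕ) (hj : j + 1 ≤ 2 * (m + 1)) :
    ∀ v ∈ Val (R := R) (m + 1 + 1),
      X (m + 1 + 1) true (j + 1) (X (m + 1 + 1) false (j + 1) v) = v := by
  refine Val_ext ((X (m + 1 + 1) true (j + 1)).comp (X (m + 1 + 1) false (j + 1)))
    (LinearMap.id : V R →ₗ[R] V R) ?_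
  intro e he b d w hw
  have hw' := W_le hw
  show X (m + 1 + 1) true (j + 1) (X (m + 1 + 1) false (j + 1) (P e b w)) = P e b w
  rcases cases4 j e with h | rfl | rfl | ⟨j, rfl, h⟩
  · rw [X_lt _ _ h, X_lt _ _ h, H.pn j (by omega) (by omega) w hw']
  · rcases two (d j) b with hd | hd
    · have hL := H.L_mem (k := j) (by omega) hw'
      have hc := new_curl H true (j + 1) hj (!b) _ hL
      simp only [cf, if_true, Bool.not_not] at hc
      rw [Xn_end_anti hw hd, map_add, map_smul, map_smul, Xp_next_anti hw hd, hc, a_ai]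
      abel
    · rw [Xn_end_par hw hd, map_sub, map_smul, Xp_next_par hw hd, Xp_end]
      abel
  · rw [Xn_next, Xp_end]
  · rw [X_ge _ _ h, X_ge _ _ h, H.pn j (by omega) (by omega) w hw']

theorem new_np (H : Rel R 0 m) (j : ℕ) (hj : j + 1 ≤ 2 * (m + 1)) :
    ∀ v ∈ Val (R := R) (m + 1 + 1),
      X (m + 1 + 1) false (j + 1) (X (m + 1 + 1) true (j + 1) v) = v := by
  refine Val_ext ((X (m + 1 + 1) false (j + 1)).comp (X (m + 1 + 1) true (j + 1)))
    (LinearMap.id : V R →ₗ[R] V R) ?_
  intro e he b d w hw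
  have hw' := W_le hw
  show X (m + 1 + 1) false (j + 1) (X (m + 1 + 1) true (j + 1) (P e b w)) = P e b w
  rcases cases4 j e with h | rfl | rfl | ⟨j, rfl, h⟩
  · rw [X_lt _ _ h, X_lt _ _ h, H.np j (by omega) (by omega) w hw']
  · rw [Xp_end, Xn_next]
  · rcases two (d j) b with hd | hd
    · have hL := H.L_mem (k := j) (by omega) hw'
      have hc := new_curl H false (j + 1) (by omega) b _ hL
      simp only [cf, Bool.false_eq_true, if_false] at hc
      rw [Xp_next_anti hw hd, map_sub, map_smul, Xn_end_anti hw hd, hc]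
      abel
    · rw [Xp_next_par hw hd, map_add, map_smul, Xn_end_par hw hd, Xn_next]
      abel
  · rw [X_ge _ _ h, X_ge _ _ h, H.np j (by omega) (by omega) w hw']

end

end

end Pool.Agent.Helper127.Homfly
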