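import Pool.Agent.Helper127.Homfly.E8

/-!
# Existence of the HOMFLY polynomial, part 9: deaths and other pieces
-/

set_option autoImplicit false

namespace Pool.Agent.Helper127.Homfly

open Pool.Agent.Helper454.Wh (insD delD swpD noD)
open Par

noncomputable section

set_option linter.unusedSectionVars false

theorem del_lt {i j : ℕ} (h : j < i) (d : ℕ → Bool) : delD i d j = d j := by
  simp only [delD]; rw [if_pos h]
theorem del_gt {i j : ℕ} (h : i ≤ j) (d : ℕ → Bool) : delD i d j = d (j + 2) := by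
  simp only [delD]; rw [if_neg (by omega)]

section
variable {R : Type} [CommRing R] [Par R] {m : ℕ}

theorem Dcurl (b : Bool) {i : ℕ} (hi : i ≤ 2 * m) {d : ℕ → Bool} (hd : d (i + 1) = !d i) {v : V R}
    (hv : v ∈ W (R := R) (m + 1) d) :
    D m i (X (m + 1) b i v) = cf R b • D m i v := by
  obtain ⟨H, HD⟩ := allRel (R := R) m
  have hx := H.hX b i (by omega) hi _ v hv
  have hD := HD.hD i hi d hd v hv
  have hv' := W_le hv
  have s1 := HD.ska i hi _ (by rw [swp_l, swp_r, hd, Bool.not_not]) _ hx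
  have s2 := HD.ska i hi d hd v hv
  rw [swp_l, hd, Bool.not_not] at s1
  refine Binj i (d i) ?_
  apply z_cancel
  have hc := H.curl b i (by omega) hi (!d i) _ (W_le hD)
  rw [Bool.not_not] at hc
  rw [← s1, map_smul, ← hc, ← map_smul, ← s2, map_sub]
  cases b
  · rw [H.pn i (by omega) hi v hv', H.np i (by omega) hi v hv']
  · rw [H.pn i (by omega) hi v hv', H.np i (by omega) hi v hv']

theorem DX1 (b : Bool) {i j : ℕ} (hij : i ≤ j) (hj : j + 2 ≤ 2 * m) {d : ℕ → Bool}
    (hd : d (i + 1) = !d i) {v : V R} (hv : v ∈ W (R := R) (m + 1) d) :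
    D m i (X (m + 1) b (j + 2) v) = X m b j (D m i v) := by
  obtain ⟨H, HD⟩ := allRel (R := R) m
  have hx := H.hX b (j + 2) (by omega) hj _ v hv
  have hD := HD.hD i (by omega) d hd v hv
  have hv' := W_le hv
  have s1 := HD.ska i (by omega) _ (by rw [swp_lt (by omega), swp_lt (by omega), hd]) _ hx
  have s2 := HD.ska i (by omega) d hd v hv
  rw [swp_lt (by omega)] at s1
  refine Binj i (!d i) ?_
  apply z_cancel
  rw [← s1, ← H.xb b i j hij hj _ _ (W_le hD), ← map_smul, ← s2, map_sub]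
  rw [H.xx true b i (j + 2) (by omega) (by omega) hj v hv',
    H.xx false b i (j + 2) (by omega) (by omega) hj v hv']

theorem DX2 (b : Bool) {i j : ℕ} (hij : i + 2 ≤ j) (hj : j ≤ 2 * m) {d : ℕ → Bool}
    (hd : d (j + 1) = !d j) {v : V R} (hv : v ∈ W (R := R) (m + 1) d) :
    D m j (X (m + 1) b i v) = X m b i (D m j v) := by
  obtain ⟨H, HD⟩ := allRel (R := R) m
  have hx := H.hX b i (by omega) (by omega) _ v hv
  have hD := HD.hD j hj d hd v hv
  have hv' := W_le hv
  have s1 := HD.ska j hj _ (by rw [swp_gt (by omega), swp_gt (by omega), hd]) _ hx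
  have s2 := HD.ska j hj d hd v hv
  rw [swp_gt (by omega)] at s1
  refine Binj j (!d j) ?_
  apply z_cancel
  rw [← s1, ← H.bx b j i (by omega) hij hj _ _ (W_le hD), ← map_smul, ← s2, map_sub]
  rw [H.xx b true i j (by omega) hij hj v hv', H.xx b false i j (by omega) hij hj v hv']

theorem DB1 {i j : ℕ} (hij : i ≤ j) (hj : j ≤ 2 * m) (q : Bool) {d : ℕ → Bool}
    (hd : d (j + 1) = !d j) {v : V R} (hv : v ∈ W (R := R) (m + 1) d) :
    D (m + 1) (j + 2) (B i q v) = B i q (D m j v) := by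
  obtain ⟨H, HD⟩ := allRel (R := R) m
  obtain ⟨H1, HD1⟩ := allRel (R := R) (m + 1)
  have hB : B i q v ∈ W (R := R) (m + 1 + 1) (insD i q d) := B_memW hv (by omega) q
  have hD := HD.hD j hj d hd v hv
  have hv' := W_le hv
  have s1 := HD1.ska (j + 2) (by omega) _ (by
    rw [show j + 2 + 1 = (j + 1) + 2 by omega, ins_ge (by omega), ins_ge hij, hd]) _ hB
  have s2 := HD.ska j hj d hd v hv
  rw [ins_ge hij] at s1
  refine Binj (j + 2) (!d j) ?_
  apply z_cancel
  rw [← s1, bb hij hj _ _ (W_le hD), ← map_smul, ← s2, map_sub,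
    H1.xb true i j hij (by omega) q v hv', H1.xb false i j hij (by omega) q v hv']

theorem DB2 {i j : ℕ} (hij : i ≤ j) (hj : j ≤ 2 * m) (q : Bool) {d : ℕ → Bool}
    (hd : d (i + 1) = !d i) {v : V R} (hv : v ∈ W (R := R) (m + 1) d) :
    D (m + 1) i (B (j + 2) q v) = B j q (D m i v) := by
  obtain ⟨H, HD⟩ := allRel (R := R) m
  obtain ⟨H1, HD1⟩ := allRel (R := R) (m + 1)
  have hB : B (j + 2) q v ∈ W (R := R) (m + 1 + 1) (insD (j + 2) q d) := B_memW hv (by omega) q
  have hD := HD.hD i (by omega) d hd v hv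
  have hv' := W_le hv
  have s1 := HD1.ska i (by omega) _ (by rw [ins_lt (by omega), ins_lt (by omega), hd]) _ hB
  have s2 := HD.ska i (by omega) d hd v hv
  rw [ins_lt (by omega)] at s1
  refine Binj i (!d i) ?_
  apply z_cancel
  rw [← s1, ← bb hij hj _ _ (W_le hD), ← map_smul, ← s2, map_sub,
    H1.bx true (j + 2) i (by omega) (by omega) (by omega) q v hv',
    H1.bx false (j + 2) i (by omega) (by omega) (by omega) q v hv']

theorem DD {i j : ℕ} (hij : i ≤ j) (hj : j ≤ 2 * m) {d : ℕ → Bool}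
    (hd : d (i + 1) = !d i) (hd2 : d (j + 3) = !d (j + 2)) {v : V R}
    (hv : v ∈ W (R := R) (m + 1 + 1) d) :
    D m j (D (m + 1) i v) = D m i (D (m + 1) (j + 2) v) := by
  obtain ⟨H, HD⟩ := allRel (R := R) m
  obtain ⟨H1, HD1⟩ := allRel (R := R) (m + 1)
  have hv' := W_le hv
  have h1 := HD1.hD i (by omega) d hd v hv
  have h2 := HD1.hD (j + 2) (by omega) d hd2 v hv
  have c1 : delD i d j = d (j + 2) := del_gt hij d
  have c2 : delD i d (j + 1) = d (j + 3) := del_gt (by omega) d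
  have c3 : delD (j + 2) d i = d i := del_lt (by omega) d
  have c4 : delD (j + 2) d (i + 1) = d (i + 1) := del_lt (by omega) d
  have s1 := HD.ska j hj _ (by rw [c1, c2, hd2]) _ h1
  have s2 := HD.ska i (by omega) _ (by rw [c3, c4, hd]) _ h2
  have h4 := HD.hD i (by omega) _ (by rw [c3, c4, hd]) _ h2
  rw [c1] at s1
  rw [c3] at s2
  refine Binj j (!d (j + 2)) (Binj i (!d i) ?_)
  apply z_cancel
  apply z_cancel
  rw [← map_smul (B i (!d i)), ← s1, ← bb hij hj _ _ (W_le h4),
    ← map_smul (B (j + 2) (!d (j + 2))), ← s2]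
  have m1 : ∀ b, X (m + 1) b j (D (m + 1) i v) = D (m + 1) i (X (m + 1 + 1) b (j + 2) v) :=
    fun b => (DX1 b hij (by omega) hd hv).symm
  have m2 : ∀ b, X (m + 1) b i (D (m + 1) (j + 2) v) =
      D (m + 1) (j + 2) (X (m + 1 + 1) b i v) :=
    fun b => (DX2 b (by omega) (by omega) hd2 hv).symm
  rw [m1, m1, m2, m2, ← map_sub, ← map_sub]
  have y1 : X (m + 1 + 1) false (j + 2) v - X (m + 1 + 1) true (j + 2) v ∈
      W (R := R) (m + 1 + 1) (swpD (j + 2) d) :=
    sub_mem (H1.hX _ _ (by omega) (by omega) _ _ hv) (H1.hX _ _ (by omega) (by omega) _ _ hv)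
  have y2 : X (m + 1 + 1) false i v - X (m + 1 + 1) true i v ∈
      W (R := R) (m + 1 + 1) (swpD i d) :=
    sub_mem (H1.hX _ _ (by omega) (by omega) _ _ hv) (H1.hX _ _ (by omega) (by omega) _ _ hv)
  have t1 := HD1.ska i (by omega) _ (by rw [swp_lt (by omega), swp_lt (by omega), hd]) _ y1
  have t2 := HD1.ska (j + 2) (by omega) _ (by
    rw [swp_gt (by omega), swp_gt (by omega)]; exact hd2) _ y2
  rw [swp_lt (by omega)] at t1
  rw [swp_gt (by omega)] at t2
  rw [← t1, ← t2]
  have xx' : ∀ b c, X (m + 1 + 1) b i (X (m + 1 + 1) c (j + 2) v) =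
      X (m + 1 + 1) c (j + 2) (X (m + 1 + 1) b i v) :=
    fun b c => H1.xx b c i (j + 2) (by omega) (by omega) (by omega) v hv'
  simp only [map_sub, xx']
  abel

end

end

end Pool.Agent.Helper127.Homfly
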